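import Pool.Agent.Helper42.Pak.Ord

/-!
# Degrees of divisors, derivatives, fibres
-/

set_option autoImplicit false

namespace Pool.Agent.Helper42.Pak

open Polynomial

variable {K : Type*} [Field K]

/-- a finite set containing all points where the order of `p` is not zero -/
noncomputable def supp (p : K[X]) : Finset (Option K) := by
  classical exact insert none (p.roots.toFinset.image some)

theorem none_mem_supp (p : K[X]) : none ∈ supp p := by
  classical
  unfold supp
  exact Finset.mem_insert_self _ _

theorem mem_supp_of_ne {q : Option K} {p : K[X]} (hp : p ≠ 0) (h : ordPol q p ≠ 0) :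
    q ∈ supp p := by
  classical
  cases q with
  | none => exact none_mem_supp p
  | some a =>
    unfold supp
    refine Finset.mem_insert_of_mem (Finset.mem_image_of_mem _ ?_)
    rw [Multiset.mem_toFinset, mem_roots hp, IsRoot.def]
    by_contra h0
    exact h (ordPol_eq_zero_of_eval h0)

theorem sum_supp [IsAlgClosed K] (p : K[X]) (φ : Option K → ℤ)
    (hφ : ∀ a, φ (some a) = p.rootMultiplicity a) :
    ∑ q ∈ supp p, φ q = φ none + p.natDegree := by
  classical
  unfold supp
  rw [Finset.sum_insert (by simp), Finset.sum_image (by intro a _ b _ h; exact Option.some.inj h)]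
  congr 1
  simp only [hφ]
  rw [(IsAlgClosed.splits p).natDegree_eq_card_roots, ← Multiset.toFinset_sum_count_eq]
  push_cast
  refine Finset.sum_congr rfl fun a _ => ?_
  rw [count_roots]

theorem sum_ordPol [IsAlgClosed K] {p : K[X]} (hp : p ≠ 0) {S : Finset (Option K)}
    (hS : supp p ⊆ S) : ∑ q ∈ S, ordPol q p = 0 := by
  classical
  rw [← Finset.sum_subset hS (fun q _ hq => by
    by_contra h
    exact hq (mem_supp_of_ne hp h)), sum_supp p _ (fun a => rfl), ordPol_none]
  ring

theorem sum_abs_ordPol [IsAlgClosed K] {p : K[X]} (hp : p ≠ 0) (S : Finset (Option K)) :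
    ∑ q ∈ S, |ordPol q p| ≤ 2 * p.natDegree := by
  classical
  calc ∑ q ∈ S, |ordPol q p| ≤ ∑ q ∈ S ∪ supp p, |ordPol q p| :=
        Finset.sum_le_sum_of_subset_of_nonneg Finset.subset_union_left
          (fun _ _ _ => abs_nonneg _)
    _ = ∑ q ∈ supp p, |ordPol q p| := by
        rw [← Finset.sum_subset Finset.subset_union_right]
        intro q _ hq
        by_contra h
        exact hq (mem_supp_of_ne hp (fun h0 => h (by rw [h0]; rfl)))
    _ = 2 * p.natDegree := by
        rw [sum_supp p (fun q => |ordPol q p|) (fun a => by
          show |ordPol (some a) p| = _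
          rw [ordPol_some, Nat.abs_cast])]
        rw [ordPol_none, abs_neg, Nat.abs_cast]
        ring

/-- order of `dX` -/
def wt (q : Option K) : ℤ :=
  match q with
  | none => -2
  | some _ => 0

/-- order of the differential form `f dX` -/
noncomputable def ordW (q : Option K) (f : RatFunc K) : ℤ := ordP q f + wt q

/-- order of the derivative -/
theorem ord_wronskian [CharZero K] {u w : K[X]} (hu : u ≠ 0) (hw : w ≠ 0) (q : Option K)
    (hn : ordPol q u - ordPol q w ≠ 0) :
    derivative u * w - u * derivative w ≠ 0 ∧
    ordPol q (derivative u * w - u * derivative w) - 2 * ordPol q w + wt q =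
      ordPol q u - ordPol q w - 1 := by
  cases q with
  | none =>
    rw [ordPol_none, ordPol_none] at hn
    set m := u.natDegree with hm
    set l := w.natDegree with hl
    set W := derivative u * w - u * derivative w with hW
    have e1 : X * W = (X * derivative u) * w - u * (X * derivative w) := by rw [hW]; ring
    have d1 : ∀ p : K[X], (X * derivative p).natDegree ≤ p.natDegree := by
      intro p
      by_cases hp0 : derivative p = 0
      · rw [hp0, mul_zero, natDegree_zero]; exact Nat.zero_le _
      · have hpp : p.natDegree ≠ 0 := by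
          intro h0
          obtain ⟨c, rfl⟩ := natDegree_eq_zero.1 h0
          exact hp0 derivative_C
        have h1 := natDegree_derivative_lt hpp
        rw [natDegree_X_mul hp0]
        omega
    have c1 : ∀ p : K[X], (X * derivative p).coeff p.natDegree = p.natDegree * p.leadingCoeff := by
      intro p
      rcases Nat.eq_zero_or_pos p.natDegree with h0 | h0
      · rw [h0, coeff_X_mul_zero]; simp
      · obtain ⟨k, hk⟩ : ∃ k, p.natDegree = k + 1 := ⟨p.natDegree - 1, by omega⟩
        rw [leadingCoeff, hk, coeff_X_mul, coeff_derivative]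
        push_cast
        ring
    have c2 : (X * W).coeff (m + l) = (m - l) * (u.leadingCoeff * w.leadingCoeff) := by
      rw [e1, coeff_sub, coeff_mul_add_eq_of_natDegree_le (d1 u) le_rfl,
        coeff_mul_add_eq_of_natDegree_le le_rfl (d1 w), c1, c1]
      rw [← hm, ← hl]
      rw [show u.coeff m = u.leadingCoeff from rfl, show w.coeff l = w.leadingCoeff from rfl]
      ring
    have c3 : (X * W).coeff (m + l) ≠ 0 := by
      rw [c2]
      refine mul_ne_zero ?_ (mul_ne_zero (leadingCoeff_ne_zero.2 hu) (leadingCoeff_ne_zero.2 hw))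
      intro h0
      have h1 : (m : K) = l := sub_eq_zero.1 h0
      have h2 : m = l := by exact_mod_cast h1
      rw [h2] at hn
      simp at hn
    have hW0 : W ≠ 0 := by
      intro h0
      rw [h0, mul_zero, coeff_zero] at c3
      exact c3 rfl
    have d2 : (X * W).natDegree ≤ m + l := by
      rw [e1]
      refine (natDegree_sub_le _ _).trans (max_le ?_ ?_)
      · exact natDegree_mul_le.trans (Nat.add_le_add (d1 u) le_rfl)
      · exact natDegree_mul_le.trans (Nat.add_le_add le_rfl (d1 w))
    have d3 : (X * W).natDegree = m + l := le_antisymm d2 (le_natDegree_of_ne_zero c3)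
    rw [natDegree_X_mul hW0] at d3
    refine ⟨hW0, ?_⟩
    rw [ordPol_none, ordPol_none, ordPol_none]
    unfold wt
    simp only
    omega
  | some a =>
    rw [ordPol_some, ordPol_some] at hn
    obtain ⟨u₁, hu₁, hu₂⟩ := exists_eq_pow_rootMultiplicity_mul_and_not_dvd u hu a
    obtain ⟨w₁, hw₁, hw₂⟩ := exists_eq_pow_rootMultiplicity_mul_and_not_dvd w hw a
    set m := u.rootMultiplicity a with hm
    set l := w.rootMultiplicity a with hl
    set W := derivative u * w - u * derivative w with hW
    have d1 : ∀ k : ℕ, (X - C a) * derivative ((X - C a) ^ k) = (k : K[X]) * (X - C a) ^ k := by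
      intro k
      rcases Nat.eq_zero_or_pos k with h0 | h0
      · subst h0; simp
      · obtain ⟨j, rfl⟩ : ∃ j, k = j + 1 := ⟨k - 1, by omega⟩
        rw [derivative_X_sub_C_pow, Nat.add_sub_cancel, C_eq_natCast]
        push_cast
        ring
    have e1 : (X - C a) * W = (X - C a) ^ (m + l) *
        (((m : K[X]) - (l : K[X])) * (u₁ * w₁) + (X - C a) * (derivative u₁ * w₁ - u₁ * derivative w₁)) := by
      have eu : (X - C a) * derivative u = (X - C a) ^ m * ((m : K[X]) * u₁ +
          (X - C a) * derivative u₁) := by
        conv_lhs => rw [hu₁]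
        rw [derivative_mul, mul_add, ← mul_assoc, d1]
        ring
      have ew : (X - C a) * derivative w = (X - C a) ^ l * ((l : K[X]) * w₁ +
          (X - C a) * derivative w₁) := by
        conv_lhs => rw [hw₁]
        rw [derivative_mul, mul_add, ← mul_assoc, d1]
        ring
      have : (X - C a) * W = ((X - C a) * derivative u) * w - u * ((X - C a) * derivative w) := by
        rw [hW]; ring
      rw [this, eu, ew]
      conv_lhs => rw [hu₁, hw₁]
      rw [pow_add]
      ring
    set G := ((m : K[X]) - (l : K[X])) * (u₁ * w₁) + (X - C a) * (derivative u₁ * w₁ - u₁ * derivative w₁)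
      with hG
    have hu3 : u₁.eval a ≠ 0 := fun h0 => hu₂ (dvd_iff_isRoot.2 h0)
    have hw3 : w₁.eval a ≠ 0 := fun h0 => hw₂ (dvd_iff_isRoot.2 h0)
    have hGa : G.eval a ≠ 0 := by
      rw [hG, eval_add, eval_mul, eval_mul, eval_mul, eval_sub (X : K[X]), eval_X, eval_C,
        sub_self, zero_mul, add_zero, eval_sub, eval_natCast, eval_natCast]
      refine mul_ne_zero ?_ (mul_ne_zero hu3 hw3)
      intro h0
      have h1 : (m : K) = l := sub_eq_zero.1 h0
      have h2 : m = l := by exact_mod_cast h1
      rw [h2] at hn
      simp at hn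
    have hG0 : G ≠ 0 := by
      intro h0
      rw [h0, eval_zero] at hGa
      exact hGa rfl
    have hX : (X - C a : K[X]) ≠ 0 := X_sub_C_ne_zero a
    have hW0 : W ≠ 0 := by
      intro h0
      rw [h0, mul_zero] at e1
      exact (mul_ne_zero (pow_ne_zero _ hX) hG0) e1.symm
    have h5 := congrArg (ordPol (some a)) e1
    rw [ordPol_mul _ hX hW0, ordPol_mul _ (pow_ne_zero _ hX) hG0, ordPol_eq_zero_of_eval hGa,
      ordPol_some_X_sub_C_self, ordPol_some a ((X - C a) ^ (m + l)),
      rootMultiplicity_X_sub_C_pow] at h5
    refine ⟨hW0, ?_⟩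
    rw [ordPol_some a u, ordPol_some a w, ← hm, ← hl]
    unfold wt
    push_cast at h5
    simp only
    linarith

end Pool.Agent.Helper42.Pak
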