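import Mathlib

/-!
# The abstract dynamical lemma
-/

set_option autoImplicit false

namespace Pool.Agent.Helper42.Pak

/-- A branched map `π` of degree `d` with local degrees `e`, and functions `ν i` (order of a
differential form plus one) which are pulled back by `π`. -/
structure DynData (P : Type*) (d C : ℤ) where
  π : P → P
  e : P → ℤ
  fib : P → Finset P
  ν : ℕ → P → ℤ
  S : ℕ → Finset P
  two_le : 2 ≤ d
  e_pos : ∀ q, 0 < e q
  mem_fib : ∀ q p, q ∈ fib p ↔ π q = p
  sum_fib : ∀ p, ∑ q ∈ fib p, e q = d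
  ν_succ : ∀ i q, ν (i + 1) q = e q * ν i (π q)
  ν_out : ∀ i q, q ∉ S i → ν i q = 1
  bound : ∀ i, ∀ T : Finset P, ∑ q ∈ T, |ν i q - 1| ≤ C
  deg : ∀ i, ∑ q ∈ S i, (ν i q - 1) = -2

namespace DynData

variable {P : Type*} {d C : ℤ} (D : DynData P d C)

include D in
theorem growth (i : ℕ) (p : P) (h0 : D.ν i p ≠ 0) (h1 : D.ν i p ≠ 1) (k : ℕ) :
    ∃ T : Finset P, (∀ q ∈ T, D.ν (i + k) q ≠ 0 ∧ D.ν (i + k) q ≠ 1) ∧
      d ^ k ≤ ∑ q ∈ T, |D.ν (i + k) q| := by
  classical
  induction k with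
  | zero =>
    refine ⟨{p}, ?_, ?_⟩
    · intro q hq
      rw [Finset.mem_singleton] at hq
      subst hq
      exact ⟨h0, h1⟩
    · rw [Finset.sum_singleton, pow_zero, add_zero]
      exact Int.one_le_abs h0
  | succ k ih =>
    obtain ⟨T, hT, hsum⟩ := ih
    refine ⟨T.biUnion D.fib, ?_, ?_⟩
    · intro q hq
      rw [Finset.mem_biUnion] at hq
      obtain ⟨p', hp', hq'⟩ := hq
      rw [D.mem_fib] at hq'
      obtain ⟨a0, a1⟩ := hT p' hp'
      have hs := D.ν_succ (i + k) q
      rw [hq'] at hs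
      have he := D.e_pos q
      rw [← add_assoc, hs]
      refine ⟨mul_ne_zero he.ne' a0, ?_⟩
      intro h2
      rcases Int.eq_one_or_neg_one_of_mul_eq_one' h2 with ⟨h3, h4⟩ | ⟨h3, h4⟩
      · exact a1 h4
      · omega
    · have hdis : (T : Set P).PairwiseDisjoint D.fib := by
        intro x _ y _ hxy
        rw [Function.onFun, Finset.disjoint_left]
        intro q hq hq'
        rw [D.mem_fib] at hq hq'
        exact hxy (hq.symm.trans hq')
      rw [Finset.sum_biUnion hdis]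
      have h2 : ∀ p' ∈ T, ∑ q ∈ D.fib p', |D.ν (i + (k + 1)) q| = d * |D.ν (i + k) p'| := by
        intro p' _
        have e1 : d * |D.ν (i + k) p'| = (∑ q ∈ D.fib p', D.e q) * |D.ν (i + k) p'| := by
          rw [D.sum_fib]
        rw [e1, Finset.sum_mul]
        refine Finset.sum_congr rfl fun q hq => ?_
        rw [D.mem_fib] at hq
        rw [← add_assoc, D.ν_succ, hq, abs_mul, abs_of_pos (D.e_pos q)]
      rw [Finset.sum_congr rfl h2, ← Finset.mul_sum, pow_succ, mul_comm (d ^ k)]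
      exact mul_le_mul_of_nonneg_left hsum (by linarith [D.two_le])

include D in
theorem zero_or_one (i : ℕ) (p : P) : D.ν i p = 0 ∨ D.ν i p = 1 := by
  by_contra hcon
  push Not at hcon
  obtain ⟨h0, h1⟩ := hcon
  have key : ∀ k : ℕ, d ^ k ≤ 2 * C := by
    intro k
    obtain ⟨T, hT, hsum⟩ := D.growth i p h0 h1 k
    have h2 : ∑ q ∈ T, |D.ν (i + k) q| ≤ 2 * ∑ q ∈ T, |D.ν (i + k) q - 1| := by
      rw [Finset.mul_sum]
      refine Finset.sum_le_sum fun q hq => ?_
      obtain ⟨_, a1⟩ := hT q hq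
      have h3 : 1 ≤ |D.ν (i + k) q - 1| := Int.one_le_abs (sub_ne_zero.2 a1)
      have h4 : |D.ν (i + k) q| ≤ |D.ν (i + k) q - 1| + 1 := by
        have := abs_add_le (D.ν (i + k) q - 1) 1
        rw [sub_add_cancel, abs_one] at this
        exact this
      linarith
    have h5 := D.bound (i + k) T
    linarith
  have h6 : ∀ k : ℕ, (k : ℤ) < d ^ k := by
    intro k
    have h7 : (2 : ℤ) ^ k ≤ d ^ k := pow_le_pow_left₀ (by norm_num) D.two_le k
    have h8 : (k : ℤ) < 2 ^ k := by exact_mod_cast Nat.lt_two_pow_self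
    linarith
  have h9 := key (2 * C).toNat
  have h10 := h6 (2 * C).toNat
  have h11 : 2 * C ≤ ((2 * C).toNat : ℤ) := Int.self_le_toNat _
  linarith

/-- the finite set of zeros of `ν i` -/
noncomputable def Z (i : ℕ) : Finset P := by
  classical exact (D.S i).filter (fun q => D.ν i q = 0)

theorem mem_Z (i : ℕ) (q : P) : q ∈ D.Z i ↔ D.ν i q = 0 := by
  classical
  unfold Z
  rw [Finset.mem_filter]
  refine ⟨fun h => h.2, fun h => ⟨?_, h⟩⟩
  by_contra h1
  have := D.ν_out i q h1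
  omega

theorem card_Z (i : ℕ) : (D.Z i).card = 2 := by
  classical
  have h := D.deg i
  have h1 : ∑ q ∈ D.S i, (D.ν i q - 1) = ∑ q ∈ D.S i, (if D.ν i q = 0 then (-1 : ℤ) else 0) := by
    refine Finset.sum_congr rfl fun q _ => ?_
    rcases D.zero_or_one i q with h2 | h2
    · rw [if_pos h2, h2]; rfl
    · rw [if_neg (by omega), h2]; rfl
  rw [h1, ← Finset.sum_filter, Finset.sum_const] at h
  have h2 : ((D.Z i).card : ℤ) = 2 := by
    unfold Z
    simp only [mul_neg, mul_one, nsmul_eq_mul] at h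
    have h3 := neg_injective h
    convert h3
  exact_mod_cast h2

theorem mem_Z_succ (i : ℕ) (q : P) : q ∈ D.Z (i + 1) ↔ D.π q ∈ D.Z i := by
  rw [D.mem_Z, D.mem_Z, D.ν_succ]
  have := D.e_pos q
  constructor
  · intro h
    rcases mul_eq_zero.1 h with h1 | h1
    · omega
    · exact h1
  · intro h
    rw [h, mul_zero]

theorem e_eq_one (i : ℕ) (q : P) (h : q ∉ D.Z (i + 1)) : D.e q = 1 := by
  have h1 : D.ν i (D.π q) = 1 := by
    rcases D.zero_or_one i (D.π q) with h2 | h2
    · exact absurd ((D.mem_Z_succ i q).2 ((D.mem_Z i _).2 h2)) h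
    · exact h2
  have h2 : D.ν (i + 1) q = 1 := by
    rcases D.zero_or_one (i + 1) q with h2 | h2
    · exact absurd ((D.mem_Z _ q).2 h2) h
    · exact h2
  rw [D.ν_succ, h1, mul_one] at h2
  exact h2

theorem fib_nonempty (p : P) : (D.fib p).Nonempty := by
  rw [Finset.nonempty_iff_ne_empty]
  intro h
  have h1 := D.sum_fib p
  rw [h, Finset.sum_empty] at h1
  have := D.two_le
  omega

theorem e_eq_d (i : ℕ) (q : P) (h : q ∈ D.Z (i + 1)) : D.e q = d := by
  classical
  obtain ⟨z1, z2, hz, hZ⟩ := Finset.card_eq_two.1 (D.card_Z i)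
  -- the two fibres
  have hsub : ∀ z ∈ D.Z i, D.fib z ⊆ D.Z (i + 1) := by
    intro z hz' q' hq'
    rw [D.mem_fib] at hq'
    rw [D.mem_Z_succ, hq']
    exact hz'
  have hcard : (D.fib z1).card + (D.fib z2).card ≤ 2 := by
    rw [← D.card_Z (i + 1), ← Finset.card_union_of_disjoint]
    · apply Finset.card_le_card
      apply Finset.union_subset
      · exact hsub z1 (by rw [hZ]; simp)
      · exact hsub z2 (by rw [hZ]; simp)
    · rw [Finset.disjoint_left]
      intro q' h1 h2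
      rw [D.mem_fib] at h1 h2
      exact hz (h1.symm.trans h2)
  have c1 := (D.fib_nonempty z1).card_pos
  have c2 := (D.fib_nonempty z2).card_pos
  have hone : ∀ z ∈ D.Z i, (D.fib z).card = 1 := by
    intro z hz'
    rw [hZ] at hz'
    simp only [Finset.mem_insert, Finset.mem_singleton] at hz'
    rcases hz' with rfl | rfl <;> omega
  have hq := (D.mem_Z_succ i q).1 h
  obtain ⟨q', hq'⟩ := Finset.card_eq_one.1 (hone _ hq)
  have h3 : q ∈ D.fib (D.π q) := (D.mem_fib _ _).2 rfl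
  rw [hq', Finset.mem_singleton] at h3
  have h4 := D.sum_fib (D.π q)
  rw [hq', Finset.sum_singleton, ← h3] at h4
  exact h4

/-- Conclusion: there is a completely invariant pair of totally ramified points. -/
theorem exists_pair : ∃ a b : P, a ≠ b ∧ D.e a = d ∧ D.e b = d ∧
    ((D.π a = a ∧ D.π b = b) ∨ (D.π a = b ∧ D.π b = a)) ∧
    ∀ q, q ≠ a → q ≠ b → D.π q ≠ a ∧ D.π q ≠ b := by
  classical
  have h12 : D.Z 1 ⊆ D.Z 2 := by
    intro q hq
    by_contra h1
    have h2 := D.e_eq_one 1 q h1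
    have h3 := D.e_eq_d 0 q hq
    have := D.two_le
    omega
  have heq : D.Z 1 = D.Z 2 := Finset.eq_of_subset_of_card_le h12 (by
    rw [D.card_Z, D.card_Z])
  obtain ⟨a, b, hab, hZ⟩ := Finset.card_eq_two.1 (D.card_Z 1)
  have hmem : ∀ q, (D.π q = a ∨ D.π q = b) ↔ (q = a ∨ q = b) := by
    intro q
    have h1 := D.mem_Z_succ 1 q
    rw [show (1 + 1) = 2 from rfl, ← heq, hZ] at h1
    simp only [Finset.mem_insert, Finset.mem_singleton] at h1
    exact h1.symm
  have ha : a ∈ D.Z 1 := by rw [hZ]; simp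
  have hb : b ∈ D.Z 1 := by rw [hZ]; simp
  refine ⟨a, b, hab, D.e_eq_d 0 a ha, D.e_eq_d 0 b hb, ?_, ?_⟩
  · obtain ⟨qa, hqa⟩ := D.fib_nonempty a
    obtain ⟨qb, hqb⟩ := D.fib_nonempty b
    rw [D.mem_fib] at hqa hqb
    have h1 := (hmem qa).1 (Or.inl hqa)
    have h2 := (hmem qb).1 (Or.inr hqb)
    rcases h1 with rfl | rfl
    · rcases h2 with rfl | rfl
      · exact absurd (hqa.symm.trans hqb) hab
      · exact Or.inl ⟨hqa, hqb⟩
    · rcases h2 with rfl | rfl
      · exact Or.inr ⟨hqb, hqa⟩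
      · exact absurd (hqa.symm.trans hqb) hab
  · intro q h1 h2
    have h3 := (hmem q).not.2 (by tauto)
    tauto

end DynData

end Pool.Agent.Helper42.Pak
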