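import Pool.Agent.Helper42.Pak.Div

/-!
# Fibres of a rational function
-/

set_option autoImplicit false

namespace Pool.Agent.Helper42.Pak

open Polynomial

variable {K : Type*} [Field K]

theorem sum_pos_part [IsAlgClosed K] {u w : K[X]} (h : IsCoprime u w) :
    ∑ q ∈ supp u, max 0 (ordPol q u - ordPol q w) =
      ((max u.natDegree w.natDegree : ℕ) : ℤ) := by
  rw [sum_supp u]
  · simp only [ordPol_none]
    rcases le_total u.natDegree w.natDegree with h1 | h1
    · rw [max_eq_right h1, max_eq_right (by omega)]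
      omega
    · rw [max_eq_left h1, max_eq_left (by omega)]
      omega
  · intro a
    by_cases h0 : u.eval a = 0
    · have h1 := coprime_not_both h h0
      rw [ordPol_eq_zero_of_eval h1, sub_zero, ordPol_some]
      exact max_eq_right (by positivity)
    · rw [ordPol_eq_zero_of_eval h0, rootMultiplicity_eq_zero h0, max_eq_left]
      · rfl
      · have := ordPol_some_nonneg a w
        omega

/-- Data of a nonconstant rational function `g = b1 / b2`. -/
structure IsFrac (g : RatFunc K) (b1 b2 : K[X]) : Prop where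
  cop : IsCoprime b1 b2
  ne2 : b2 ≠ 0
  eq : g = algebraMap K[X] (RatFunc K) b1 / algebraMap K[X] (RatFunc K) b2
  deg : 1 ≤ max b1.natDegree b2.natDegree

/-- numerator of the local parameter -/
noncomputable def fibU (b1 b2 : K[X]) (p : Option K) : K[X] :=
  match p with
  | none => b2
  | some c => b1 - C c * b2

/-- denominator of the local parameter -/
noncomputable def fibW (b1 b2 : K[X]) (p : Option K) : K[X] :=
  match p with
  | none => b1
  | some _ => b2

variable {g : RatFunc K} {b1 b2 : K[X]}

theorem IsFrac.sub_ne (h : IsFrac g b1 b2) (c : K) : b1 - C c * b2 ≠ 0 := by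
  intro h0
  have h1 : b1 = C c * b2 := sub_eq_zero.1 h0
  have h2 : IsUnit b2 := by
    have h3 := h.cop
    rw [h1] at h3
    have h4 : IsCoprime b2 b2 := h3.of_mul_left_right
    exact isCoprime_self.1 h4
  have h3 := natDegree_eq_zero_of_isUnit h2
  have h4 : b1.natDegree ≤ b2.natDegree := by rw [h1]; exact natDegree_C_mul_le _ _
  have h5 := h.deg
  omega

theorem IsFrac.ne1 (h : IsFrac g b1 b2) : b1 ≠ 0 := by
  have := h.sub_ne 0
  simpa using this

theorem IsFrac.sub_eq (h : IsFrac g b1 b2) (c : K) : g - RatFunc.C c =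
    algebraMap K[X] (RatFunc K) (b1 - C c * b2) / algebraMap K[X] (RatFunc K) b2 := by
  have hd : algebraMap K[X] (RatFunc K) b2 ≠ 0 := RatFunc.algebraMap_ne_zero h.ne2
  rw [map_sub, map_mul, sub_div, ← h.eq, RatFunc.algebraMap_C, mul_div_assoc, div_self hd, mul_one]

theorem IsFrac.ne_C (h : IsFrac g b1 b2) (c : K) : g ≠ RatFunc.C c := by
  intro h0
  have h1 := h.sub_eq c
  rw [h0, sub_self] at h1
  have hd : algebraMap K[X] (RatFunc K) b2 ≠ 0 := RatFunc.algebraMap_ne_zero h.ne2
  exact div_ne_zero (RatFunc.algebraMap_ne_zero (h.sub_ne c)) hd h1.symm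

theorem IsFrac.ne_zero (h : IsFrac g b1 b2) : g ≠ 0 := by
  have := h.ne_C 0
  rwa [map_zero] at this

theorem IsFrac.fibU_ne (h : IsFrac g b1 b2) (p : Option K) : fibU b1 b2 p ≠ 0 := by
  cases p with
  | none => exact h.ne2
  | some c => exact h.sub_ne c

theorem IsFrac.fibW_ne (h : IsFrac g b1 b2) (p : Option K) : fibW b1 b2 p ≠ 0 := by
  cases p with
  | none => exact h.ne1
  | some c => exact h.ne2

theorem IsFrac.fib_cop (h : IsFrac g b1 b2) (p : Option K) :
    IsCoprime (fibU b1 b2 p) (fibW b1 b2 p) := by
  cases p with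
  | none => exact h.cop.symm
  | some c =>
    show IsCoprime (b1 - C c * b2) b2
    have h1 := h.cop.add_mul_right_left (-C c)
    have h2 : b1 + -C c * b2 = b1 - C c * b2 := by ring
    rwa [h2] at h1

theorem IsFrac.ordP_par (h : IsFrac g b1 b2) (q p : Option K) :
    ordP q (par g p) = ordPol q (fibU b1 b2 p) - ordPol q (fibW b1 b2 p) := by
  cases p with
  | none =>
    rw [par_none, h.eq, inv_div]
    exact ordP_div q h.ne2 h.ne1
  | some c =>
    rw [par_some, h.sub_eq c]
    exact ordP_div q (h.sub_ne c) h.ne2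

theorem IsFrac.fib_deg (h : IsFrac g b1 b2) (p : Option K) :
    max (fibU b1 b2 p).natDegree (fibW b1 b2 p).natDegree = max b1.natDegree b2.natDegree := by
  cases p with
  | none => exact max_comm _ _
  | some c =>
    show max (b1 - C c * b2).natDegree b2.natDegree = _
    rcases Nat.lt_or_ge b2.natDegree b1.natDegree with h1 | h1
    · have h2 : (C c * b2).natDegree < b1.natDegree :=
        lt_of_le_of_lt (natDegree_C_mul_le _ _) h1
      rw [natDegree_sub_eq_left_of_natDegree_lt h2]
    · have h2 : (b1 - C c * b2).natDegree ≤ b2.natDegree :=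
        (natDegree_sub_le _ _).trans (max_le h1 (natDegree_C_mul_le _ _))
      rw [max_eq_right h2, max_eq_right h1]

/-- the point of the target under `q` -/
noncomputable def img (g : RatFunc K) (q : Option K) : Option K := by
  classical exact if h : ∃ p, Over g q p then h.choose else none

theorem IsFrac.over_img (h : IsFrac g b1 b2) (q : Option K) : Over g q (img g q) := by
  classical
  have h1 : ∃ p, Over g q p := exists_over h.ne_C q
  unfold img
  rw [dif_pos h1]
  exact h1.choose_spec

theorem IsFrac.img_eq_iff (h : IsFrac g b1 b2) (q p : Option K) : img g q = p ↔ Over g q p := by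
  constructor
  · rintro rfl; exact h.over_img q
  · intro h1; exact over_unique (h.over_img q) h1

/-- local degree -/
noncomputable def ram (g : RatFunc K) (q : Option K) : ℤ := ordP q (par g (img g q))

theorem IsFrac.ram_pos (h : IsFrac g b1 b2) (q : Option K) : 0 < ram g q := h.over_img q

/-- the fibre over `p` -/
noncomputable def fib (g : RatFunc K) (b1 b2 : K[X]) (p : Option K) : Finset (Option K) := by
  classical exact (supp (fibU b1 b2 p)).filter (fun q => Over g q p)

theorem IsFrac.mem_fib (h : IsFrac g b1 b2) (q p : Option K) :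
    q ∈ fib g b1 b2 p ↔ img g q = p := by
  classical
  rw [h.img_eq_iff]
  unfold fib
  rw [Finset.mem_filter]
  refine ⟨fun h1 => h1.2, fun h1 => ⟨?_, h1⟩⟩
  cases q with
  | none => exact none_mem_supp _
  | some a =>
    apply mem_supp_of_ne (h.fibU_ne p)
    unfold Over at h1
    rw [h.ordP_par] at h1
    have := ordPol_some_nonneg a (fibW b1 b2 p)
    omega

theorem IsFrac.sum_fib [IsAlgClosed K] (h : IsFrac g b1 b2) (p : Option K) :
    ∑ q ∈ fib g b1 b2 p, ram g q = ((max b1.natDegree b2.natDegree : ℕ) : ℤ) := by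
  classical
  rw [← h.fib_deg p, ← sum_pos_part (h.fib_cop p)]
  have h1 : ∑ q ∈ fib g b1 b2 p, ram g q = ∑ q ∈ fib g b1 b2 p,
      max 0 (ordPol q (fibU b1 b2 p) - ordPol q (fibW b1 b2 p)) := by
    refine Finset.sum_congr rfl fun q hq => ?_
    have h2 := (h.mem_fib q p).1 hq
    unfold ram
    rw [h2, ← h.ordP_par]
    have h3 := (h.img_eq_iff q p).1 h2
    unfold Over at h3
    exact (max_eq_right h3.le).symm
  rw [h1]
  unfold fib
  refine Finset.sum_subset (Finset.filter_subset _ _) ?_
  intro q hq hq2
  rw [Finset.mem_filter, not_and] at hq2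
  have h2 := hq2 hq
  unfold Over at h2
  rw [h.ordP_par] at h2
  exact max_eq_left (not_lt.1 h2)

/-- the pullback formula for orders of functions -/
theorem IsFrac.ordP_aeval [IsAlgClosed K] (h : IsFrac g b1 b2) (q : Option K) (P : K[X])
    (hP : P ≠ 0) : aeval g P ≠ 0 ∧ ordP q (aeval g P) = ram g q * ordPol (img g q) P :=
  Pak.ordP_aeval h.ne_C (h.over_img q) P hP

/-- order of the differential of `g` -/
theorem IsFrac.ord_diff [CharZero K] (h : IsFrac g b1 b2) (q : Option K) :
    derivative b1 * b2 - b1 * derivative b2 ≠ 0 ∧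
    ordPol q (derivative b1 * b2 - b1 * derivative b2) - 2 * ordPol q b2 + wt q + 1 =
      ram g q * (wt (img g q) + 1) := by
  have h0 := h.ram_pos q
  have hr : ram g q = ordPol q (fibU b1 b2 (img g q)) - ordPol q (fibW b1 b2 (img g q)) :=
    h.ordP_par q _
  cases hp : img g q with
  | none =>
    rw [hp] at hr
    have hr' : ram g q = ordPol q b2 - ordPol q b1 := hr
    obtain ⟨h1, h2⟩ := ord_wronskian h.ne1 h.ne2 q (by omega)
    refine ⟨h1, ?_⟩
    rw [h2, show wt (none : Option K) = -2 from rfl, hr']
    ring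
  | some c =>
    rw [hp] at hr
    have hr' : ram g q = ordPol q (b1 - C c * b2) - ordPol q b2 := hr
    obtain ⟨h1, h2⟩ := ord_wronskian (h.sub_ne c) h.ne2 q (by omega)
    have h3 : derivative (b1 - C c * b2) * b2 - (b1 - C c * b2) * derivative b2 =
        derivative b1 * b2 - b1 * derivative b2 := by
      rw [derivative_sub, derivative_C_mul]
      ring
    rw [h3] at h1 h2
    refine ⟨h1, ?_⟩
    rw [h2, show wt (some c : Option K) = 0 from rfl, hr']
    ring

end Pool.Agent.Helper42.Pak
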