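import Pool.Agent.Helper42.Pak.Fib
import Pool.Agent.Helper42.Pak.Dyn

/-!
# Sequences of differential forms pulled back by a rational function
-/

set_option autoImplicit false

namespace Pool.Agent.Helper42.Pak

open Polynomial

variable {K : Type*} [Field K]

omit [Field K] in
theorem wt_none : wt (none : Option K) = -2 := rfl

omit [Field K] in
theorem wt_some (a : K) : wt (some a) = 0 := rfl

omit [Field K] in
theorem wt_eq_zero {q : Option K} (h : q ≠ none) : wt q = 0 := by
  cases q with
  | none => exact absurd rfl h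
  | some a => rfl

omit [Field K] in
theorem sum_wt {S : Finset (Option K)} (h : none ∈ S) : ∑ q ∈ S, wt q = -2 := by
  classical
  rw [Finset.sum_eq_single_of_mem none h (fun q _ hq => wt_eq_zero hq)]
  rfl

omit [Field K] in
theorem sum_abs_wt (S : Finset (Option K)) : ∑ q ∈ S, |wt q| ≤ 2 := by
  classical
  calc ∑ q ∈ S, |wt q| ≤ ∑ q ∈ insert none S, |wt q| :=
        Finset.sum_le_sum_of_subset_of_nonneg (Finset.subset_insert _ _) (fun _ _ _ => abs_nonneg _)
    _ = |wt (none : Option K)| := by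
        rw [Finset.sum_eq_single_of_mem none (Finset.mem_insert_self _ _)]
        intro q _ hq
        rw [wt_eq_zero hq, abs_zero]
    _ = 2 := by rw [wt_none]; rfl
    _ ≤ 2 := le_rfl

/-- The dynamical data of a sequence of forms. -/
noncomputable def dynOfForms [IsAlgClosed K] [CharZero K] {g : RatFunc K} {b1 b2 : K[X]}
    (h : IsFrac g b1 b2) (hd : 2 ≤ max b1.natDegree b2.natDegree) (M N : ℕ → K[X])
    (hM : ∀ i, M i ≠ 0) (hN : ∀ i, N i ≠ 0) (C : ℕ) (hMC : ∀ i, (M i).natDegree ≤ C)
    (hNC : ∀ i, (N i).natDegree ≤ C)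
    (hrel : ∀ i, aeval g (M i) * algebraMap K[X] (RatFunc K)
        (N (i + 1) * (derivative b1 * b2 - b1 * derivative b2)) =
      aeval g (N i) * algebraMap K[X] (RatFunc K) (M (i + 1) * b2 ^ 2)) :
    DynData (Option K) ((max b1.natDegree b2.natDegree : ℕ) : ℤ) (4 * C + 2) where
  π := img g
  e := ram g
  fib := fib g b1 b2
  ν i q := ordPol q (M i) - ordPol q (N i) + wt q + 1
  S i := by classical exact supp (M i) ∪ supp (N i)
  two_le := by exact_mod_cast hd
  e_pos := h.ram_pos
  mem_fib := h.mem_fib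
  sum_fib := h.sum_fib
  ν_succ := by
    intro i q
    obtain ⟨hW, h1⟩ := h.ord_diff q
    set W := derivative b1 * b2 - b1 * derivative b2 with hWdef
    have h2 := congrArg (ordP q) (hrel i)
    obtain ⟨a1, a2⟩ := h.ordP_aeval q (M i) (hM i)
    obtain ⟨c1, c2⟩ := h.ordP_aeval q (N i) (hN i)
    have hb : b2 ^ 2 ≠ 0 := pow_ne_zero 2 h.ne2
    have e1 : ordPol q (b2 ^ 2) = 2 * ordPol q b2 := by
      rw [pow_two, ordPol_mul q h.ne2 h.ne2]; ring
    rw [ordP_mul q a1 (RatFunc.algebraMap_ne_zero (mul_ne_zero (hN _) hW)),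
      ordP_mul q c1 (RatFunc.algebraMap_ne_zero (mul_ne_zero (hM _) hb)),
      ordP_algebraMap q (mul_ne_zero (hN _) hW), ordP_algebraMap q (mul_ne_zero (hM _) hb),
      ordPol_mul q (hN _) hW, ordPol_mul q (hM _) hb, a2, c2, e1] at h2
    linear_combination h1 - h2
  ν_out := by
    classical
    intro i q hq
    rw [Finset.mem_union, not_or] at hq
    have h1 : ordPol q (M i) = 0 := by
      by_contra h0
      exact hq.1 (mem_supp_of_ne (hM i) h0)
    have h2 : ordPol q (N i) = 0 := by
      by_contra h0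
      exact hq.2 (mem_supp_of_ne (hN i) h0)
    have h3 : q ≠ none := by
      rintro rfl
      exact hq.1 (none_mem_supp _)
    rw [h1, h2, wt_eq_zero h3]
    norm_num
  bound := by
    intro i T
    have h1 : ∑ q ∈ T, |ordPol q (M i) - ordPol q (N i) + wt q + 1 - 1| ≤
        ∑ q ∈ T, (|ordPol q (M i)| + |ordPol q (N i)| + |wt q|) := by
      refine Finset.sum_le_sum fun q _ => ?_
      rw [add_sub_cancel_right]
      refine (abs_add_le _ _).trans ?_
      gcongr
      exact abs_sub _ _
    refine h1.trans ?_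
    rw [Finset.sum_add_distrib, Finset.sum_add_distrib]
    have h2 := sum_abs_ordPol (hM i) T
    have h3 := sum_abs_ordPol (hN i) T
    have h4 := sum_abs_wt T
    have h5 : ((M i).natDegree : ℤ) ≤ C := by exact_mod_cast hMC i
    have h6 : ((N i).natDegree : ℤ) ≤ C := by exact_mod_cast hNC i
    linarith
  deg := by
    classical
    intro i
    have h1 : ∀ q, ordPol q (M i) - ordPol q (N i) + wt q + 1 - 1 =
        ordPol q (M i) - ordPol q (N i) + wt q := fun q => by ring
    simp only [h1]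
    rw [Finset.sum_add_distrib, Finset.sum_sub_distrib,
      sum_ordPol (hM i) Finset.subset_union_left, sum_ordPol (hN i) Finset.subset_union_right,
      sum_wt (Finset.mem_union_left _ (none_mem_supp _))]
    norm_num

theorem exists_pair_of_forms [IsAlgClosed K] [CharZero K] {g : RatFunc K} {b1 b2 : K[X]}
    (h : IsFrac g b1 b2) (hd : 2 ≤ max b1.natDegree b2.natDegree) (M N : ℕ → K[X])
    (hM : ∀ i, M i ≠ 0) (hN : ∀ i, N i ≠ 0) (C : ℕ) (hMC : ∀ i, (M i).natDegree ≤ C)
    (hNC : ∀ i, (N i).natDegree ≤ C)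
    (hrel : ∀ i, aeval g (M i) * algebraMap K[X] (RatFunc K)
        (N (i + 1) * (derivative b1 * b2 - b1 * derivative b2)) =
      aeval g (N i) * algebraMap K[X] (RatFunc K) (M (i + 1) * b2 ^ 2)) :
    ∃ a b : Option K, a ≠ b ∧ ram g a = ((max b1.natDegree b2.natDegree : ℕ) : ℤ) ∧
      ram g b = ((max b1.natDegree b2.natDegree : ℕ) : ℤ) ∧
      ((img g a = a ∧ img g b = b) ∨ (img g a = b ∧ img g b = a)) ∧
      ∀ q, q ≠ a → q ≠ b → img g q ≠ a ∧ img g q ≠ b :=
  (dynOfForms h hd M N hM hN C hMC hNC hrel).exists_pair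

end Pool.Agent.Helper42.Pak
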