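import Mathlib

/-!
# Orders of rational functions at the points of the projective line

`Option K` is the projective line (`none` is the point at infinity).
-/

set_option autoImplicit false

namespace Pool.Agent.Helper42.Pak

open Polynomial

variable {K : Type*} [Field K]

/-- order of a nonzero polynomial at a point of the projective line -/
noncomputable def ordPol (q : Option K) (p : K[X]) : ℤ :=
  match q with
  | some a => (p.rootMultiplicity a : ℤ)
  | none => -(p.natDegree : ℤ)

theorem ordPol_some (a : K) (p : K[X]) : ordPol (some a) p = (p.rootMultiplicity a : ℤ) := rfl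

theorem ordPol_none (p : K[X]) : ordPol (none : Option K) p = -(p.natDegree : ℤ) := rfl

theorem ordPol_mul (q : Option K) {p r : K[X]} (hp : p ≠ 0) (hr : r ≠ 0) :
    ordPol q (p * r) = ordPol q p + ordPol q r := by
  cases q with
  | none =>
    rw [ordPol_none, ordPol_none, ordPol_none, natDegree_mul hp hr]
    push_cast
    ring
  | some a =>
    rw [ordPol_some, ordPol_some, ordPol_some, rootMultiplicity_mul (mul_ne_zero hp hr)]
    push_cast
    ring

theorem ordPol_C (q : Option K) (c : K) : ordPol q (C c) = 0 := by
  cases q with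
  | none => rw [ordPol_none, natDegree_C]; rfl
  | some a => rw [ordPol_some, rootMultiplicity_C]; rfl

theorem ordPol_one (q : Option K) : ordPol q (1 : K[X]) = 0 := by
  rw [← C_1]; exact ordPol_C q 1

theorem ordPol_none_X_sub_C (r : K) : ordPol (none : Option K) (X - C r) = -1 := by
  rw [ordPol_none, natDegree_X_sub_C]; rfl

theorem ordPol_some_X_sub_C_self (r : K) : ordPol (some r) (X - C r) = 1 := by
  rw [ordPol_some, rootMultiplicity_X_sub_C_self]; rfl

theorem ordPol_some_X_sub_C_ne {a r : K} (h : a ≠ r) : ordPol (some a) (X - C r) = 0 := by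
  rw [ordPol_some, rootMultiplicity_eq_zero]
  · rfl
  · rw [IsRoot.def, eval_sub, eval_X, eval_C]
    exact sub_ne_zero.2 h

/-- order of a rational function -/
noncomputable def ordP (q : Option K) (f : RatFunc K) : ℤ := ordPol q f.num - ordPol q f.denom

theorem ordP_div (q : Option K) {p r : K[X]} (hp : p ≠ 0) (hr : r ≠ 0) :
    ordP q (algebraMap K[X] (RatFunc K) p / algebraMap K[X] (RatFunc K) r) =
      ordPol q p - ordPol q r := by
  set f := algebraMap K[X] (RatFunc K) p / algebraMap K[X] (RatFunc K) r with hf
  have hpm : algebraMap K[X] (RatFunc K) p ≠ 0 := by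
    simpa using (RatFunc.algebraMap_ne_zero hp)
  have hrm : algebraMap K[X] (RatFunc K) r ≠ 0 := RatFunc.algebraMap_ne_zero hr
  have hf0 : f ≠ 0 := div_ne_zero hpm hrm
  have h1 : f.num * r = p * f.denom := by
    have h2 := RatFunc.num_div_denom f
    have hd : algebraMap K[X] (RatFunc K) f.denom ≠ 0 :=
      RatFunc.algebraMap_ne_zero (RatFunc.denom_ne_zero f)
    have h3 : algebraMap K[X] (RatFunc K) f.num / algebraMap K[X] (RatFunc K) f.denom =
        algebraMap K[X] (RatFunc K) p / algebraMap K[X] (RatFunc K) r := h2.trans hf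
    rw [div_eq_div_iff hd hrm, ← map_mul, ← map_mul] at h3
    exact RatFunc.algebraMap_injective K h3
  have hn : f.num ≠ 0 := RatFunc.num_ne_zero hf0
  have h4 := congrArg (ordPol q) h1
  rw [ordPol_mul q hn hr, ordPol_mul q hp (RatFunc.denom_ne_zero f)] at h4
  unfold ordP
  linarith

theorem ordP_algebraMap (q : Option K) {p : K[X]} (hp : p ≠ 0) :
    ordP q (algebraMap K[X] (RatFunc K) p) = ordPol q p := by
  have h := ordP_div q hp (one_ne_zero : (1 : K[X]) ≠ 0)
  rw [map_one, div_one, ordPol_one, sub_zero] at h
  exact h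

theorem ordP_zero (q : Option K) : ordP q (0 : RatFunc K) = 0 := by
  unfold ordP
  rw [RatFunc.num_zero, RatFunc.denom_zero, ordPol_one]
  cases q with
  | none => rw [ordPol_none, natDegree_zero]; rfl
  | some a => rw [ordPol_some, rootMultiplicity_zero]; rfl

theorem ordP_mul (q : Option K) {f g : RatFunc K} (hf : f ≠ 0) (hg : g ≠ 0) :
    ordP q (f * g) = ordP q f + ordP q g := by
  have h1 : f * g = algebraMap K[X] (RatFunc K) (f.num * g.num) /
      algebraMap K[X] (RatFunc K) (f.denom * g.denom) := by
    conv_lhs => rw [← RatFunc.num_div_denom f, ← RatFunc.num_div_denom g]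
    rw [map_mul, map_mul, div_mul_div_comm]
  rw [h1, ordP_div q (mul_ne_zero (RatFunc.num_ne_zero hf) (RatFunc.num_ne_zero hg))
    (mul_ne_zero (RatFunc.denom_ne_zero f) (RatFunc.denom_ne_zero g)),
    ordPol_mul q (RatFunc.num_ne_zero hf) (RatFunc.num_ne_zero hg),
    ordPol_mul q (RatFunc.denom_ne_zero f) (RatFunc.denom_ne_zero g)]
  unfold ordP
  ring

theorem ordP_inv (q : Option K) (f : RatFunc K) : ordP q f⁻¹ = -ordP q f := by
  by_cases hf : f = 0
  · subst hf
    rw [inv_zero, ordP_zero, neg_zero]
  · have h1 : f⁻¹ = algebraMap K[X] (RatFunc K) f.denom / algebraMap K[X] (RatFunc K) f.num := by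
      conv_lhs => rw [← RatFunc.num_div_denom f]
      rw [inv_div]
    rw [h1, ordP_div q (RatFunc.denom_ne_zero f) (RatFunc.num_ne_zero hf)]
    unfold ordP
    ring

theorem ordP_C (q : Option K) (c : K) : ordP q (RatFunc.C c) = 0 := by
  unfold ordP
  rw [RatFunc.num_C, RatFunc.denom_C, ordPol_C, ordPol_one, sub_zero]

theorem ordP_pow (q : Option K) {f : RatFunc K} (hf : f ≠ 0) (n : ℕ) :
    ordP q (f ^ n) = n * ordP q f := by
  induction n with
  | zero =>
    rw [pow_zero]
    have := ordP_C q (1 : K)
    rw [map_one] at this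
    rw [this]; simp
  | succ n ih =>
    rw [pow_succ, ordP_mul q (pow_ne_zero n hf) hf, ih]
    push_cast
    ring

theorem coprime_not_both {u w : K[X]} (h : IsCoprime u w) {a : K} (hu : u.eval a = 0) :
    w.eval a ≠ 0 := by
  intro hw
  obtain ⟨s, t, hst⟩ := h
  have := congrArg (eval a) hst
  rw [eval_add, eval_mul, eval_mul, hu, hw, mul_zero, mul_zero, add_zero, eval_one] at this
  exact zero_ne_one this

theorem eval_eq_zero_of_ordPol_pos {a : K} {p : K[X]} (h : 0 < ordPol (some a) p) :
    p.eval a = 0 := by
  by_contra h0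
  rw [ordPol_some, rootMultiplicity_eq_zero h0] at h
  simp at h

theorem ordPol_eq_zero_of_eval {a : K} {p : K[X]} (h : p.eval a ≠ 0) : ordPol (some a) p = 0 := by
  rw [ordPol_some, rootMultiplicity_eq_zero h]; rfl

theorem ordPol_some_nonneg (a : K) (p : K[X]) : 0 ≤ ordPol (some a) p := by
  rw [ordPol_some]; positivity

theorem ordPol_pos_of_eval {a : K} {p : K[X]} (hp : p ≠ 0) (h : p.eval a = 0) :
    0 < ordPol (some a) p := by
  rw [ordPol_some]
  have := (rootMultiplicity_pos hp).2 h
  exact_mod_cast this

/-- adding a constant, in terms of coprime numerator and denominator -/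
theorem add_C_eq (f : RatFunc K) (c : K) : f + RatFunc.C c =
    algebraMap K[X] (RatFunc K) (f.num + C c * f.denom) / algebraMap K[X] (RatFunc K) f.denom := by
  have hd : algebraMap K[X] (RatFunc K) f.denom ≠ 0 :=
    RatFunc.algebraMap_ne_zero (RatFunc.denom_ne_zero f)
  rw [map_add, map_mul, add_div, RatFunc.num_div_denom, RatFunc.algebraMap_C,
    mul_div_assoc, div_self hd, mul_one]

theorem ordP_add_C_of_neg {q : Option K} {f : RatFunc K} (h : ordP q f < 0) (c : K) :
    ordP q (f + RatFunc.C c) = ordP q f := by
  have hf : f ≠ 0 := by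
    rintro rfl
    rw [ordP_zero] at h
    exact lt_irrefl _ h
  have hn := RatFunc.num_ne_zero hf
  have hd := RatFunc.denom_ne_zero f
  have hc := RatFunc.isCoprime_num_denom f
  rw [add_C_eq]
  cases q with
  | none =>
    have h1 : f.denom.natDegree < f.num.natDegree := by
      unfold ordP at h
      rw [ordPol_none, ordPol_none] at h
      omega
    have h2 : (C c * f.denom).natDegree < f.num.natDegree :=
      lt_of_le_of_lt (natDegree_C_mul_le c _) h1
    have h3 : (f.num + C c * f.denom).natDegree = f.num.natDegree :=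
      natDegree_add_eq_left_of_natDegree_lt h2
    have h4 : f.num + C c * f.denom ≠ 0 := by
      intro h0
      rw [h0, natDegree_zero] at h3
      omega
    rw [ordP_div _ h4 hd]
    unfold ordP
    rw [ordPol_none, ordPol_none, ordPol_none, h3]
  | some a =>
    have h1 : 0 < ordPol (some a) f.denom := by
      unfold ordP at h
      have := ordPol_some_nonneg a f.num
      omega
    have h2 := eval_eq_zero_of_ordPol_pos h1
    have h3 := coprime_not_both hc.symm h2
    have h4 : (f.num + C c * f.denom).eval a ≠ 0 := by
      rw [eval_add, eval_mul, h2, mul_zero, add_zero]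
      exact h3
    have h5 : f.num + C c * f.denom ≠ 0 := by
      intro h0
      rw [h0, eval_zero] at h4
      exact h4 rfl
    rw [ordP_div _ h5 hd, ordPol_eq_zero_of_eval h4]
    unfold ordP
    rw [ordPol_eq_zero_of_eval h3]

theorem ordP_add_C_of_pos {q : Option K} {f : RatFunc K} (h : 0 < ordP q f) {c : K} (h0 : c ≠ 0) :
    ordP q (f + RatFunc.C c) = 0 := by
  have hf : f ≠ 0 := by
    rintro rfl
    rw [ordP_zero] at h
    exact lt_irrefl _ h
  have hn := RatFunc.num_ne_zero hf
  have hd := RatFunc.denom_ne_zero f
  have hc := RatFunc.isCoprime_num_denom f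
  rw [add_C_eq]
  cases q with
  | none =>
    have h1 : f.num.natDegree < f.denom.natDegree := by
      unfold ordP at h
      rw [ordPol_none, ordPol_none] at h
      omega
    have h2 : (C c * f.denom).natDegree = f.denom.natDegree := natDegree_C_mul h0
    have h3 : (f.num + C c * f.denom).natDegree = f.denom.natDegree := by
      rw [natDegree_add_eq_right_of_natDegree_lt (by rw [h2]; exact h1), h2]
    have h4 : f.num + C c * f.denom ≠ 0 := by
      intro h0
      rw [h0, natDegree_zero] at h3
      omega
    rw [ordP_div _ h4 hd, ordPol_none, ordPol_none, h3, sub_self]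
  | some a =>
    have h1 : 0 < ordPol (some a) f.num := by
      unfold ordP at h
      have := ordPol_some_nonneg a f.denom
      omega
    have h2 := eval_eq_zero_of_ordPol_pos h1
    have h3 := coprime_not_both hc h2
    have h4 : (f.num + C c * f.denom).eval a ≠ 0 := by
      rw [eval_add, eval_mul, h2, zero_add, eval_C]
      exact mul_ne_zero h0 h3
    have h5 : f.num + C c * f.denom ≠ 0 := by
      intro h0
      rw [h0, eval_zero] at h4
      exact h4 rfl
    rw [ordP_div _ h5 hd, ordPol_eq_zero_of_eval h4, ordPol_eq_zero_of_eval h3, sub_self]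

/-- the function `g` read in the standard coordinate at the point `p` of the target -/
noncomputable def par (g : RatFunc K) (p : Option K) : RatFunc K :=
  match p with
  | none => g⁻¹
  | some c => g - RatFunc.C c

theorem par_none (g : RatFunc K) : par g none = g⁻¹ := rfl

theorem par_some (g : RatFunc K) (c : K) : par g (some c) = g - RatFunc.C c := rfl

/-- `g` maps `q` to `p` -/
def Over (g : RatFunc K) (q p : Option K) : Prop := 0 < ordP q (par g p)

theorem exists_over {g : RatFunc K} (hg : ∀ c, g ≠ RatFunc.C c) (q : Option K) :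
    ∃ p, Over g q p := by
  by_cases h : ordP q g < 0
  · exact ⟨none, by unfold Over; rw [par_none, ordP_inv]; omega⟩
  push Not at h
  have hg0 : g ≠ 0 := by
    have := hg 0
    rwa [map_zero] at this
  have hn := RatFunc.num_ne_zero hg0
  have hd := RatFunc.denom_ne_zero g
  have hc := RatFunc.isCoprime_num_denom g
  have key : ∀ c : K, g - RatFunc.C c =
      algebraMap K[X] (RatFunc K) (g.num + C (-c) * g.denom) /
        algebraMap K[X] (RatFunc K) g.denom := by
    intro c
    rw [← add_C_eq g (-c), map_neg, sub_eq_add_neg]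
  have hne : ∀ c : K, g.num + C (-c) * g.denom ≠ 0 := by
    intro c h0
    have h1 := key c
    rw [h0, map_zero, zero_div, sub_eq_zero] at h1
    exact hg c h1
  cases q with
  | none =>
    have h1 : g.num.natDegree ≤ g.denom.natDegree := by
      unfold ordP at h
      rw [ordPol_none, ordPol_none] at h
      omega
    set c := g.num.coeff g.denom.natDegree / g.denom.leadingCoeff with hcdef
    refine ⟨some c, ?_⟩
    unfold Over
    rw [par_some, key c, ordP_div _ (hne c) hd, ordPol_none, ordPol_none]
    have h2 : (g.num + C (-c) * g.denom).natDegree ≤ g.denom.natDegree :=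
      natDegree_add_le_of_degree_le h1 (natDegree_C_mul_le _ _)
    have h3 : (g.num + C (-c) * g.denom).coeff g.denom.natDegree = 0 := by
      rw [coeff_add, coeff_C_mul, hcdef]
      have : g.denom.coeff g.denom.natDegree ≠ 0 := leadingCoeff_ne_zero.2 hd
      rw [leadingCoeff]
      field_simp
      ring
    have h4 : (g.num + C (-c) * g.denom).natDegree ≠ g.denom.natDegree := by
      intro h5
      have h6 := leadingCoeff_ne_zero.2 (hne c)
      rw [leadingCoeff, h5] at h6
      exact h6 h3
    omega
  | some a =>
    have h1 : g.denom.eval a ≠ 0 := by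
      intro h2
      have h3 := coprime_not_both hc.symm h2
      have h4 := ordPol_pos_of_eval hd h2
      unfold ordP at h
      rw [ordPol_eq_zero_of_eval h3] at h
      omega
    set c := g.num.eval a / g.denom.eval a with hcdef
    refine ⟨some c, ?_⟩
    unfold Over
    rw [par_some, key c, ordP_div _ (hne c) hd, ordPol_eq_zero_of_eval h1, sub_zero]
    apply ordPol_pos_of_eval (hne c)
    rw [eval_add, eval_mul, eval_C, hcdef]
    field_simp
    ring

theorem over_unique {g : RatFunc K} {q p p' : Option K} (h : Over g q p) (h' : Over g q p') :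
    p = p' := by
  unfold Over at h h'
  cases p with
  | none =>
    cases p' with
    | none => rfl
    | some c =>
      exfalso
      rw [par_none, ordP_inv] at h
      rw [par_some, sub_eq_add_neg, ← map_neg, ordP_add_C_of_neg (by omega)] at h'
      omega
  | some c =>
    cases p' with
    | none =>
      exfalso
      rw [par_none, ordP_inv] at h'
      rw [par_some, sub_eq_add_neg, ← map_neg, ordP_add_C_of_neg (by omega)] at h
      omega
    | some c' =>
      by_contra hne
      have hcc : c - c' ≠ 0 := sub_ne_zero.2 fun h0 => hne (by rw [h0])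
      rw [par_some] at h h'
      have h1 : g - RatFunc.C c' = (g - RatFunc.C c) + RatFunc.C (c - c') := by
        rw [map_sub]; ring
      rw [h1, ordP_add_C_of_pos h hcc] at h'
      exact lt_irrefl _ h'

/-- the order of `g - r` -/
theorem ordP_sub_C {g : RatFunc K} {q p : Option K} (h : Over g q p) (r : K) :
    ordP q (g - RatFunc.C r) = ordP q (par g p) * ordPol p (X - C r) := by
  cases p with
  | none =>
    unfold Over at h
    rw [par_none, ordP_inv] at h
    rw [ordPol_none_X_sub_C, par_none, ordP_inv, sub_eq_add_neg, ← map_neg,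
      ordP_add_C_of_neg (by omega)]
    ring
  | some c =>
    by_cases hr : c = r
    · subst hr
      rw [ordPol_some_X_sub_C_self, par_some, mul_one]
    · rw [ordPol_some_X_sub_C_ne hr, mul_zero]
      unfold Over at h
      rw [par_some] at h
      have h1 : g - RatFunc.C r = (g - RatFunc.C c) + RatFunc.C (c - r) := by
        rw [map_sub]; ring
      rw [h1, ordP_add_C_of_pos h (sub_ne_zero.2 hr)]

/-- pullback of polynomials -/
theorem ordP_aeval [IsAlgClosed K] {g : RatFunc K} (hg : ∀ c, g ≠ RatFunc.C c) {q p : Option K}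
    (h : Over g q p) (P : K[X]) (hP : P ≠ 0) :
    aeval g P ≠ 0 ∧ ordP q (aeval g P) = ordP q (par g p) * ordPol p P := by
  obtain ⟨n, hn⟩ : ∃ n, P.natDegree = n := ⟨_, rfl⟩
  induction n generalizing P with
  | zero =>
    obtain ⟨c, rfl⟩ := natDegree_eq_zero.1 hn
    have hc : c ≠ 0 := by
      rintro rfl
      exact hP (map_zero _)
    rw [aeval_C, ordPol_C, mul_zero, RatFunc.algebraMap_eq_C]
    refine ⟨?_, ordP_C q c⟩
    intro h0
    rw [← map_zero RatFunc.C] at h0
    exact hc (RatFunc.C_injective h0)
  | succ n ih =>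
    obtain ⟨r, hr⟩ := IsAlgClosed.exists_root P (by
      rw [degree_eq_natDegree hP, hn]
      exact_mod_cast Nat.succ_ne_zero n)
    obtain ⟨Q, rfl⟩ := dvd_iff_isRoot.2 hr
    have hQ : Q ≠ 0 := right_ne_zero_of_mul hP
    have hX : (X - C r : K[X]) ≠ 0 := X_sub_C_ne_zero r
    have hdeg : Q.natDegree = n := by
      rw [natDegree_mul hX hQ, natDegree_X_sub_C] at hn
      omega
    obtain ⟨h1, h2⟩ := ih Q hQ hdeg
    have h3 : aeval g (X - C r) = g - RatFunc.C r := by
      rw [map_sub, aeval_X, aeval_C, RatFunc.algebraMap_eq_C]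
    have h4 : g - RatFunc.C r ≠ 0 := sub_ne_zero.2 (hg r)
    rw [map_mul, h3]
    refine ⟨mul_ne_zero h4 h1, ?_⟩
    rw [ordP_mul q h4 h1, h2, ordP_sub_C h r, ordPol_mul p hX hQ]
    ring

end Pool.Agent.Helper42.Pak
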