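import Pool.Agent.Helper98.Pak.Conj

/-!
# Periodic critical point, second half: a semi-invariant function gives an exceptional set
-/

set_option autoImplicit false

namespace Pool.Agent.Helper63.Pak

open IntermediateField

namespace PC2

variable {Ω : Type} [Field Ω] [Algebra ℂ Ω]

/-- the automorphisms which preserve `R` -/
def stabR (R : IntermediateField ℂ Ω) : Subgroup (Ω ≃ₐ[ℂ] Ω) where
  carrier := {g | mapF g R = R}
  one_mem' := by
    show mapF 1 R = R
    ext z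
    rw [mem_mapF]
    exact Iff.rfl
  mul_mem' {g h} hg hh := by
    show mapF (g * h) R = R
    have hg' : mapF g R = R := hg
    have hh' : mapF h R = R := hh
    ext z
    rw [mem_mapF]
    have h1 : (g * h).symm z = h.symm (g.symm z) := rfl
    rw [h1, ← mem_mapF (g := h) (K := R), hh', ← mem_mapF (g := g) (K := R), hg']
  inv_mem' {g} hg := by
    show mapF g⁻¹ R = R
    have hg' : mapF g R = R := hg
    ext z
    rw [mem_mapF]
    have h1 : (g⁻¹).symm z = g z := rfl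
    rw [h1]
    conv_lhs => rw [← hg']
    rw [mem_mapF, AlgEquiv.symm_apply_apply]

theorem mem_stabR {R : IntermediateField ℂ Ω} {g : Ω ≃ₐ[ℂ] Ω} : g ∈ stabR R ↔ mapF g R = R :=
  Iff.rfl

theorem zpow_apply {x : ℤ → Ω} {σ : Ω ≃ₐ[ℂ] Ω} (hσ : ∀ n, σ (x n) = x (n + 1)) (j n : ℤ) :
    (σ ^ j) (x n) = x (n + j) := by
  have h1 : ∀ n, σ⁻¹ (x n) = x (n - 1) := by
    intro n
    have h2 := hσ (n - 1)
    rw [sub_add_cancel] at h2
    show σ.symm (x n) = _
    rw [← h2, AlgEquiv.symm_apply_apply]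
  induction j using Int.induction_on generalizing n with
  | zero => simp
  | succ i ih =>
    rw [zpow_add_one, AlgEquiv.mul_apply, hσ, ih]
    congr 1
    ring
  | pred i ih =>
    rw [zpow_sub_one, AlgEquiv.mul_apply, h1, ih]
    congr 1
    ring

/-- the group `AA` -/
def InAA (x : ℤ → Ω) (R : IntermediateField ℂ Ω) (g : Ω ≃ₐ[ℂ] Ω) : Prop :=
  mapF g R = R ∧ ∃ k : ℕ, g (x (-k)) = x (-k)

variable {A : RatFunc ℂ} {x : ℤ → Ω} {R : IntermediateField ℂ Ω}

theorem InAA.conj [CurveUniverse Ω] (hx : Tower A x) {σ : Ω ≃ₐ[ℂ] Ω} (hσ : ∀ n, σ (x n) = x (n + 1))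
    (hσR : mapF σ R = R) {g : Ω ≃ₐ[ℂ] Ω} (hg : InAA x R g) (j : ℤ) :
    InAA x R ((σ ^ j)⁻¹ * g * σ ^ j) := by
  obtain ⟨h1, k, hk⟩ := hg
  have hs : σ ^ j ∈ stabR R := (stabR R).zpow_mem hσR j
  refine ⟨(stabR R).mul_mem ((stabR R).mul_mem ((stabR R).inv_mem hs) h1) hs, k + j.natAbs, ?_⟩
  have h2 : g (x (-((k + j.natAbs : ℕ) : ℤ) + j)) = x (-((k + j.natAbs : ℕ) : ℤ) + j) := by
    refine (hx.map g).eq_of_le hx hk ?_
    push_cast
    have := neg_abs_le j
    have := le_abs_self j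
    omega
  rw [AlgEquiv.mul_apply, AlgEquiv.mul_apply, zpow_apply hσ, h2, ← zpow_neg, zpow_apply hσ]
  congr 1
  ring

theorem conj_apply {σ : Ω ≃ₐ[ℂ] Ω} (hσ : ∀ n, σ (x n) = x (n + 1)) (Q : RatFunc ℂ) (j n : ℤ) :
    (σ ^ j) (ev Q (x n)) = ev Q (x (n + j)) := by
  rw [ev_map, zpow_apply hσ]

theorem val_const_mul (hPT : PTFacts Ω) (v : Pt Ω) (c : ℂ) {z : Ω} {u : ℂ}
    (h : val v z = (u : OnePoint ℂ)) :
    val v (algebraMap ℂ Ω c * z) = ((c * u : ℂ) : OnePoint ℂ) := by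
  rw [hPT.val_eq_coe_iff] at h ⊢
  have h1 : algebraMap ℂ Ω c * z - algebraMap ℂ Ω (c * u) =
      algebraMap ℂ Ω c * (z - algebraMap ℂ Ω u) := by
    rw [map_mul]; ring
  rw [h1, map_mul]
  have h2 : v.ring.valuation (algebraMap ℂ Ω c) ≤ 1 :=
    (v.ring.valuation_le_one_iff _).2 (v.const_mem c)
  exact mul_lt_one_of_nonneg_of_lt_one_right h2 zero_le h

theorem val_const_mul_infty (hPT : PTFacts Ω) (v : Pt Ω) {c : ℂ} (hc : c ≠ 0) {z : Ω}
    (h : val v z = OnePoint.infty) : val v (algebraMap ℂ Ω c * z) = OnePoint.infty := by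
  by_contra h1
  rw [← ne_eq, ← hPT.mem_ring_iff] at h1
  have h2 : z ∈ v.ring := by
    have h3 := mul_mem (v.const_mem c⁻¹) h1
    rw [← mul_assoc, ← map_mul, inv_mul_cancel₀ hc, map_one, one_mul] at h3
    exact h3
  exact (hPT.mem_ring_iff v z).1 h2 h

/-- zeros and poles -/
def ZP (Q : RatFunc ℂ) : Set (OnePoint ℂ) :=
  {q | pmap Q q = ((0 : ℂ) : OnePoint ℂ) ∨ pmap Q q = OnePoint.infty}

theorem exists_of_notMem_ZP {Q : RatFunc ℂ} {q : OnePoint ℂ} (h : q ∉ ZP Q) :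
    ∃ u : ℂ, u ≠ 0 ∧ pmap Q q = (u : OnePoint ℂ) := by
  cases hq : pmap Q q with
  | infty => exact absurd (Or.inr hq) h
  | coe u =>
    refine ⟨u, ?_, rfl⟩
    rintro rfl
    exact h (Or.inl hq)

/-- the value at the zeros and poles does not change when multiplied by a constant -/
theorem val_ZP (hPT : PTFacts Ω) (v : Pt Ω) {c : ℂ} (hc : c ≠ 0) {z : Ω}
    (h : val v z = ((0 : ℂ) : OnePoint ℂ) ∨ val v z = OnePoint.infty) :
    val v (algebraMap ℂ Ω c * z) = ((0 : ℂ) : OnePoint ℂ) ∨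
      val v (algebraMap ℂ Ω c * z) = OnePoint.infty := by
  rcases h with h | h
  · left
    have := val_const_mul hPT v c h
    rwa [mul_zero] at this
  · right
    exact val_const_mul_infty hPT v hc h

theorem infinite_contra {CC : Set ℂ} (hCC : ¬ CC.Finite) {u : ℂ} (hu : u ≠ 0)
    {S : Set (OnePoint ℂ)} (hS : S.Finite)
    (h : ∀ c ∈ CC, ((c * u : ℂ) : OnePoint ℂ) ∈ S) : False := by
  apply hCC
  have hinj : Function.Injective (fun c : ℂ => ((c * u : ℂ) : OnePoint ℂ)) := by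
    intro c c' hcc
    exact mul_right_cancel₀ hu (OnePoint.coe_injective hcc)
  exact (hS.preimage hinj.injOn).subset fun c hc => h c hc

end PC2

open PC2

variable {Ω : Type} [Field Ω] [Algebra ℂ Ω] [CurveUniverse Ω]
variable {A : RatFunc ℂ} {x : ℤ → Ω} {R : IntermediateField ℂ Ω}

/-- Second half of the case of a periodic critical point: if some nonconstant `Q (x m)` is
semi-invariant under all automorphisms preserving `R` and fixing some `x (-k)`, then the orbits of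
the `x j` under the automorphisms preserving `R` and `x 0` are bounded (otherwise the zeros and
poles of `Q` form an exceptional set of `A`). -/
theorem periodic_second (hPT : PTFacts Ω) (hA : 2 ≤ rdeg A) (hx : Tower A x)
    (hR : IsSmallField x R) (hE : NoExc A) {σ : Ω ≃ₐ[ℂ] Ω} (hσ : ∀ n, σ (x n) = x (n + 1))
    (m : ℤ) (Q : RatFunc ℂ) (hQ : 1 ≤ rdeg Q)
    (hg : ∀ g : Ω ≃ₐ[ℂ] Ω, mapF g R = R → (∃ k : ℕ, g (x (-k)) = x (-k)) →
      ∃ c : ℂ, c ≠ 0 ∧ g (ev Q (x m)) = algebraMap ℂ Ω c * ev Q (x m)) :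
    ∃ B : ℕ, ∀ j : ℕ,
      {w | ∃ g : Ω ≃ₐ[ℂ] Ω, g (x 0) = x 0 ∧ mapF g R = R ∧ g (x j) = w}.ncard ≤ B := by
  classical
  have hσR : mapF σ R = R := hR.map_shift hPT hA hx hσ
  have hs : ∀ j : ℤ, mapF (σ ^ j) R = R := fun j => (stabR R).zpow_mem hσR j
  have hQt : ∀ n, Transcendental ℂ (ev Q (x n)) := fun n => transcendental_ev (hx.trans n) hQ
  -- the eigenvalues at all levels
  set CC : Set ℂ := {c | ∃ g, InAA x R g ∧ g (ev Q (x m)) = algebraMap ℂ Ω c * ev Q (x m)}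
    with hCCdef
  have hE1 : ∀ (n : ℤ) (g : Ω ≃ₐ[ℂ] Ω), InAA x R g →
      ∃ c : ℂ, c ≠ 0 ∧ g (ev Q (x n)) = algebraMap ℂ Ω c * ev Q (x n) := by
    intro n g hgA
    have h1 := hgA.conj hx hσ hσR (n - m)
    obtain ⟨c, hc, h2⟩ := hg _ h1.1 h1.2
    refine ⟨c, hc, ?_⟩
    have h3 := congrArg (σ ^ (n - m)) h2
    rw [map_mul, AlgEquiv.commutes, conj_apply hσ, add_sub_cancel, AlgEquiv.mul_apply,
      AlgEquiv.mul_apply, conj_apply hσ, add_sub_cancel] at h3
    rw [← h3]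
    show _ = (σ ^ (n - m)) ((σ ^ (n - m)).symm _)
    rw [AlgEquiv.apply_symm_apply]
  have hE2 : ∀ (n : ℤ), ∀ c ∈ CC, ∃ g, InAA x R g ∧
      g (ev Q (x n)) = algebraMap ℂ Ω c * ev Q (x n) := by
    rintro n c ⟨g, hgA, h2⟩
    have h1 := hgA.conj hx hσ hσR (m - n)
    refine ⟨_, h1, ?_⟩
    rw [AlgEquiv.mul_apply, AlgEquiv.mul_apply, conj_apply hσ, add_sub_cancel, h2, map_mul,
      AlgEquiv.commutes]
    congr 1
    show (σ ^ (m - n)).symm _ = _
    rw [AlgEquiv.symm_apply_eq, conj_apply hσ, add_sub_cancel]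
  by_cases hfin : CC.Finite
  · -- the orbit of `x m` is finite
    set O : Set Ω := {w | ∃ g, InAA x R g ∧ g (x m) = w} with hO
    have hOfin : O.Finite := by
      have h1 : (⋃ c ∈ CC, {y | ev Q y = algebraMap ℂ Ω c * ev Q (x m)}).Finite := by
        refine hfin.biUnion ?_
        rintro c ⟨g, hgA, h2⟩
        rw [← h2]
        refine finite_ev_eq ?_ hQ
        rw [ev_map]
        refine transcendental_ev ?_ hQ
        exact (hx.map g).trans m
      refine h1.subset ?_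
      rintro w ⟨g, hgA, rfl⟩
      obtain ⟨c, hc, h2⟩ := hE1 m g hgA
      rw [Set.mem_iUnion₂]
      refine ⟨c, ⟨g, hgA, h2⟩, ?_⟩
      show ev Q (g (x m)) = _
      rw [← ev_map, h2]
    refine ⟨O.ncard, fun j => ?_⟩
    set τ := σ ^ ((j : ℤ) - m) with hτ
    have hinj : Function.Injective (τ⁻¹ : Ω ≃ₐ[ℂ] Ω) := (τ⁻¹ : Ω ≃ₐ[ℂ] Ω).injective
    rw [← Set.ncard_image_of_injective _ hinj]
    refine Set.ncard_le_ncard ?_ hOfin
    rintro _ ⟨w, ⟨g, h0, h1, rfl⟩, rfl⟩
    have hgA : InAA x R g := ⟨h1, 0, by simpa using h0⟩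
    refine ⟨τ⁻¹ * g * τ, hgA.conj hx hσ hσR _, ?_⟩
    rw [AlgEquiv.mul_apply, AlgEquiv.mul_apply, hτ, zpow_apply hσ, add_sub_cancel]
  · -- the zeros and poles of `Q` form an exceptional set
    exfalso
    have hA1 : 1 ≤ rdeg A := by omega
    have hZPfin : (ZP Q).Finite := by
      have h1 := (fibre_finite hPT hQ ((0 : ℂ) : OnePoint ℂ)).union
        (fibre_finite hPT hQ OnePoint.infty)
      refine h1.subset ?_
      rintro q (hq | hq)
      · exact Or.inl hq
      · exact Or.inr hq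
    have hZPne : (ZP Q).Nonempty := by
      obtain ⟨q, hq⟩ := pmap_surjective hPT hQ OnePoint.infty
      exact ⟨q, Or.inr hq⟩
    have hval : ∀ (v : Pt Ω) (n : ℤ), val v (ev Q (x n)) = pmap Q (val v (x n)) := fun v n =>
      hPT.val_ev v Q (hx.trans n)
    have hstep : ∀ v : Pt Ω, val v (x 0) = pmap A (val v (x 1)) := by
      intro v
      have h1 := hPT.val_ev v A (hx.trans 1)
      have h2 := hx.step 0
      rw [zero_add] at h2
      rw [← h1, h2]
    have hw : ∀ (g : Ω ≃ₐ[ℂ] Ω) (v : Pt Ω) (z : Ω), val (g⁻¹ • v) z = val v (g z) := by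
      intro g v z
      have h1 := hPT.val_smul g (g⁻¹ • v) z
      rw [smul_inv_smul] at h1
      exact h1.symm
    refine hE (ZP Q) hZPfin hZPne (Set.Subset.antisymm ?_ ?_)
    · intro q hq
      by_contra hq2
      obtain ⟨u, hu, hqu⟩ := exists_of_notMem_ZP hq2
      obtain ⟨v, hv⟩ := hPT.exists_val (hx.trans 1) q
      have hpre : (pmap A ⁻¹' ZP Q).Finite := by
        have h1 : (⋃ p ∈ ZP Q, pmap A ⁻¹' {p}).Finite :=
          hZPfin.biUnion fun p _ => fibre_finite hPT hA1 p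
        refine h1.subset ?_
        intro q' hq'
        rw [Set.mem_iUnion₂]
        exact ⟨pmap A q', hq', rfl⟩
      refine infinite_contra hfin hu (hpre.image (pmap Q)) ?_
      intro c hc
      obtain ⟨g, hgA, h2⟩ := hE2 1 c hc
      obtain ⟨c', hc', h3⟩ := hE1 0 g hgA
      refine ⟨val (g⁻¹ • v) (x 1), ?_, ?_⟩
      · show pmap A (val (g⁻¹ • v) (x 1)) ∈ ZP Q
        rw [← hstep]
        show pmap Q (val (g⁻¹ • v) (x 0)) = _ ∨ pmap Q (val (g⁻¹ • v) (x 0)) = _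
        rw [← hval, hw, h3]
        apply val_ZP hPT v hc'
        rw [hval, hstep, hv]
        exact hq
      · rw [← hval, hw, h2]
        apply val_const_mul hPT
        rw [hval, hv, hqu]
    · intro q hq
      by_contra hq2
      obtain ⟨u, hu, hqu⟩ := exists_of_notMem_ZP (show pmap A q ∉ ZP Q from hq2)
      obtain ⟨v, hv⟩ := hPT.exists_val (hx.trans 1) q
      refine infinite_contra hfin hu ((hZPfin.image (pmap A)).image (pmap Q)) ?_
      intro c hc
      obtain ⟨g, hgA, h2⟩ := hE2 0 c hc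
      obtain ⟨c', hc', h3⟩ := hE1 1 g hgA
      refine ⟨val (g⁻¹ • v) (x 0), ⟨val (g⁻¹ • v) (x 1), ?_, ?_⟩, ?_⟩
      · show pmap Q (val (g⁻¹ • v) (x 1)) = _ ∨ pmap Q (val (g⁻¹ • v) (x 1)) = _
        rw [← hval, hw, h3]
        apply val_ZP hPT v hc'
        rw [hval, hv]
        exact hq
      · exact (hstep _).symm
      · rw [← hval, hw, h2]
        apply val_const_mul hPT
        rw [hval, hstep, hv, hqu]

end Pool.Agent.Helper63.Pak
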