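import Pool.Agent.Helper42.Pak.Forms
import Pool.Agent.Helper63.Pak.Defs

/-!
# A rational function over `ℂ` with a bounded sequence of pulled back forms is conjugate to a power
-/

set_option autoImplicit false

namespace Pool.Agent.Helper42.Pak

open Polynomial hiding comp

open Pool.Agent.Helper63.Pak (rdeg MobConj comp)

section Transfer

variable {F K : Type*} [Field F] [Field K]

theorem ordPol_map (φ : F →+* K) (q : Option F) (p : F[X]) :
    ordPol (q.map φ) (p.map φ) = ordPol q p := by
  cases q with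
  | none =>
    show ordPol none _ = _
    rw [ordPol_none, ordPol_none, natDegree_map]
  | some a =>
    show ordPol (some (φ a)) _ = _
    rw [ordPol_some, ordPol_some, ← eq_rootMultiplicity_map φ.injective]

theorem IsFrac.ordP_par_map (φ : F →+* K) {f : RatFunc F} {g : RatFunc K} {u w : F[X]}
    (h : IsFrac f u w) (h' : IsFrac g (u.map φ) (w.map φ)) (q p : Option F) :
    ordP (q.map φ) (par g (p.map φ)) = ordP q (par f p) := by
  have h1 : fibU (u.map φ) (w.map φ) (p.map φ) = (fibU u w p).map φ := by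
    cases p with
    | none => rfl
    | some c =>
      show u.map φ - C (φ c) * w.map φ = (u - C c * w).map φ
      rw [Polynomial.map_sub, Polynomial.map_mul, map_C]
  have h2 : fibW (u.map φ) (w.map φ) (p.map φ) = (fibW u w p).map φ := by
    cases p with
    | none => rfl
    | some c => rfl
  rw [h'.ordP_par, h1, h2, ordPol_map, ordPol_map, ← h.ordP_par]

theorem IsFrac.img_map (φ : F →+* K) {f : RatFunc F} {g : RatFunc K} {u w : F[X]}
    (h : IsFrac f u w) (h' : IsFrac g (u.map φ) (w.map φ)) (q : Option F) :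
    img g (q.map φ) = (img f q).map φ := by
  rw [h'.img_eq_iff]
  unfold Over
  rw [h.ordP_par_map φ h']
  exact h.over_img q

theorem IsFrac.ram_map (φ : F →+* K) {f : RatFunc F} {g : RatFunc K} {u w : F[X]}
    (h : IsFrac f u w) (h' : IsFrac g (u.map φ) (w.map φ)) (q : Option F) :
    ram g (q.map φ) = ram f q := by
  unfold ram
  rw [h.img_map φ h', h.ordP_par_map φ h']

/-- ramified points are defined over the base field -/
theorem IsFrac.mem_of_ram [IsAlgClosed F] [CharZero K] (φ : F →+* K) {g : RatFunc K}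
    {u w : F[X]} (h' : IsFrac g (u.map φ) (w.map φ)) {a : Option K} (ha : 2 ≤ ram g a) :
    ∃ a' : Option F, a = a'.map φ := by
  cases a with
  | none => exact ⟨none, rfl⟩
  | some a =>
    obtain ⟨hW, h1⟩ := h'.ord_diff (some a)
    rw [wt_some] at h1
    have hWm : derivative (u.map φ) * w.map φ - u.map φ * derivative (w.map φ) =
        (derivative u * w - u * derivative w).map φ := by
      rw [Polynomial.map_sub, Polynomial.map_mul, Polynomial.map_mul, derivative_map,
        derivative_map]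
    rw [hWm] at h1 hW
    set W := derivative u * w - u * derivative w with hWdef
    have key : ∀ p : F[X], p ≠ 0 → 0 < ordPol (some a) (p.map φ) → ∃ a' : Option F,
        some a = a'.map φ := by
      intro p hp hpos
      have h2 := eval_eq_zero_of_ordPol_pos hpos
      obtain ⟨x, hx⟩ := (IsAlgClosed.splits p).mem_range_of_isRoot hp (i := φ) h2
      exact ⟨some x, by rw [Option.map_some, hx]⟩
    have hW0 : W ≠ 0 := by
      rintro h0
      rw [h0, Polynomial.map_zero] at hW
      exact hW rfl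
    have hw0 : w ≠ 0 := by
      rintro rfl
      exact h'.ne2 (Polynomial.map_zero _)
    cases hp : img g (some a) with
    | none =>
      rw [hp, wt_none] at h1
      refine key w hw0 ?_
      have := ordPol_some_nonneg a (W.map φ)
      nlinarith
    | some c =>
      rw [hp, wt_some] at h1
      refine key W hW0 ?_
      have := ordPol_some_nonneg a (w.map φ)
      nlinarith

end Transfer

section Mob

/-- `X - a`, or `1` for the point at infinity -/
noncomputable def lin (a : Option ℂ) : ℂ[X] :=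
  match a with
  | none => 1
  | some α => X - C α

theorem lin_ne (a : Option ℂ) : lin a ≠ 0 := by
  cases a with
  | none => exact one_ne_zero
  | some α => exact X_sub_C_ne_zero α

open Classical in
theorem ordPol_lin (q a : Option ℂ) : ordPol q (lin a) =
    (if q = a then 1 else 0) - (if q = none then 1 else 0) := by
  cases a with
  | none =>
    show ordPol q 1 = _
    rw [ordPol_one]; ring
  | some α =>
    show ordPol q (X - C α) = _
    cases q with
    | none => rw [ordPol_none_X_sub_C, if_neg (by simp), if_pos rfl]; ring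
    | some c =>
      by_cases hc : c = α
      · subst hc
        rw [ordPol_some_X_sub_C_self, if_pos rfl, if_neg (by simp)]; ring
      · rw [ordPol_some_X_sub_C_ne hc, if_neg (by simpa using hc), if_neg (by simp)]; ring

/-- the Moebius transformation with zero `a` and pole `b` times `l` -/
noncomputable def mob (l : ℂ) (a b : Option ℂ) : RatFunc ℂ :=
  algebraMap ℂ[X] (RatFunc ℂ) (C l * lin a) / algebraMap ℂ[X] (RatFunc ℂ) (lin b)

open Classical in
theorem ordP_mob {l : ℂ} (hl : l ≠ 0) (q a b : Option ℂ) : ordP q (mob l a b) =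
    (if q = a then 1 else 0) - (if q = b then 1 else 0) := by
  have hC : (C l : ℂ[X]) ≠ 0 := C_ne_zero.2 hl
  unfold mob
  rw [ordP_div q (mul_ne_zero hC (lin_ne a)) (lin_ne b), ordPol_mul q hC (lin_ne a), ordPol_C,
    ordPol_lin, ordPol_lin]
  ring

theorem mob_ne {l : ℂ} (hl : l ≠ 0) (a b : Option ℂ) : mob l a b ≠ 0 :=
  div_ne_zero (RatFunc.algebraMap_ne_zero (mul_ne_zero (C_ne_zero.2 hl) (lin_ne a)))
    (RatFunc.algebraMap_ne_zero (lin_ne b))

theorem rdeg_mob {l : ℂ} (hl : l ≠ 0) {a b : Option ℂ} (hab : a ≠ b) : rdeg (mob l a b) = 1 := by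
  classical
  have hf := mob_ne hl a b
  have h1 := sum_pos_part (RatFunc.isCoprime_num_denom (mob l a b))
  have h2 : ∀ q : Option ℂ, max 0 (ordPol q (mob l a b).num - ordPol q (mob l a b).denom) =
      if q = a then 1 else 0 := by
    intro q
    have h3 : ordPol q (mob l a b).num - ordPol q (mob l a b).denom = ordP q (mob l a b) := rfl
    rw [h3, ordP_mob hl]
    by_cases hq : q = a
    · subst hq
      rw [if_pos rfl, if_neg hab]; rfl
    · rw [if_neg hq]
      by_cases hq' : q = b
      · rw [if_pos hq']; rfl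
      · rw [if_neg hq']; rfl
  simp only [h2] at h1
  have ha : a ∈ supp (mob l a b).num := by
    cases a with
    | none => exact none_mem_supp _
    | some α =>
      apply mem_supp_of_ne (RatFunc.num_ne_zero hf)
      have h3 := h2 (some α)
      rw [if_pos rfl] at h3
      have h4 := ordPol_some_nonneg α (mob l (some α) b).denom
      intro h5
      rw [h5] at h3
      have : max (0 : ℤ) (0 - ordPol (some α) (mob l (some α) b).denom) = 0 :=
        max_eq_left (by omega)
      omega
  rw [Finset.sum_ite_eq' (supp (mob l a b).num) a, if_pos ha] at h1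
  unfold rdeg
  exact_mod_cast h1.symm

/-- composition, computed with any fraction -/
theorem comp_div {g : RatFunc ℂ} {b1 b2 : ℂ[X]} (h : IsFrac g b1 b2) {u w : ℂ[X]} (hw : w ≠ 0) :
    comp (algebraMap ℂ[X] (RatFunc ℂ) u / algebraMap ℂ[X] (RatFunc ℂ) w) g =
      aeval g u / aeval g w := by
  set f := algebraMap ℂ[X] (RatFunc ℂ) u / algebraMap ℂ[X] (RatFunc ℂ) w with hf
  have hne : ∀ P : ℂ[X], P ≠ 0 → aeval g P ≠ 0 := fun P hP => (h.ordP_aeval none P hP).1
  have h1 : comp f g = aeval g f.num / aeval g f.denom := by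
    unfold comp RatFunc.eval
    rw [aeval_def, aeval_def, RatFunc.algebraMap_eq_C]
  have hwm : algebraMap ℂ[X] (RatFunc ℂ) w ≠ 0 := RatFunc.algebraMap_ne_zero hw
  have h2 : f.num * w = u * f.denom := by
    have h2 := RatFunc.num_div_denom f
    have hd : algebraMap ℂ[X] (RatFunc ℂ) f.denom ≠ 0 :=
      RatFunc.algebraMap_ne_zero (RatFunc.denom_ne_zero f)
    have h3 : algebraMap ℂ[X] (RatFunc ℂ) f.num / algebraMap ℂ[X] (RatFunc ℂ) f.denom =
        algebraMap ℂ[X] (RatFunc ℂ) u / algebraMap ℂ[X] (RatFunc ℂ) w := h2.trans hf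
    rw [div_eq_div_iff hd hwm, ← map_mul, ← map_mul] at h3
    exact RatFunc.algebraMap_injective ℂ h3
  rw [h1, div_eq_div_iff (hne _ (RatFunc.denom_ne_zero f)) (hne _ hw), ← map_mul, h2, map_mul]

theorem comp_X_pow {g : RatFunc ℂ} {b1 b2 : ℂ[X]} (h : IsFrac g b1 b2) (n : ℕ) :
    comp (RatFunc.X ^ n) g = g ^ n := by
  have h1 : (RatFunc.X ^ n : RatFunc ℂ) = algebraMap ℂ[X] (RatFunc ℂ) (X ^ n) /
      algebraMap ℂ[X] (RatFunc ℂ) 1 := by
    rw [map_one, div_one, map_pow, RatFunc.algebraMap_X]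
  rw [h1, comp_div h one_ne_zero, map_one, div_one, map_pow, aeval_X]

theorem comp_X_pow_inv {g : RatFunc ℂ} {b1 b2 : ℂ[X]} (h : IsFrac g b1 b2) (n : ℕ) :
    comp (RatFunc.X ^ n)⁻¹ g = (g ^ n)⁻¹ := by
  have h1 : ((RatFunc.X ^ n)⁻¹ : RatFunc ℂ) = algebraMap ℂ[X] (RatFunc ℂ) 1 /
      algebraMap ℂ[X] (RatFunc ℂ) (X ^ n) := by
    rw [map_one, map_pow, RatFunc.algebraMap_X, one_div]
  rw [h1, comp_div h (pow_ne_zero n X_ne_zero), map_one, map_pow, aeval_X, one_div]

/-- a function without zeros and poles is constant -/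
theorem eq_C_of_ordP {f : RatFunc ℂ} (hf : f ≠ 0) (h : ∀ q, ordP q f = 0) :
    ∃ c : ℂ, c ≠ 0 ∧ f = RatFunc.C c := by
  have hn := RatFunc.num_ne_zero hf
  have hd := RatFunc.denom_ne_zero f
  have hc := RatFunc.isCoprime_num_denom f
  have hnr : ∀ a, f.num.eval a ≠ 0 := by
    intro a h0
    have h1 := coprime_not_both hc h0
    have h2 := ordPol_pos_of_eval hn h0
    have h3 := h (some a)
    unfold ordP at h3
    rw [ordPol_eq_zero_of_eval h1] at h3
    omega
  have hdr : ∀ a, f.denom.eval a ≠ 0 := by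
    intro a h0
    have h1 := coprime_not_both hc.symm h0
    have h2 := ordPol_pos_of_eval hd h0
    have h3 := h (some a)
    unfold ordP at h3
    rw [ordPol_eq_zero_of_eval h1] at h3
    omega
  have key : ∀ p : ℂ[X], p ≠ 0 → (∀ a, p.eval a ≠ 0) → ∃ c : ℂ, c ≠ 0 ∧ p = C c := by
    intro p hp hpr
    by_cases h0 : p.degree = 0
    · have h1 := eq_C_of_degree_eq_zero h0
      refine ⟨p.coeff 0, ?_, h1⟩
      intro h2
      rw [h2, map_zero] at h1
      exact hp h1
    · obtain ⟨r, hr⟩ := IsAlgClosed.exists_root p h0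
      exact absurd hr (hpr r)
  obtain ⟨c, hc0, hc1⟩ := key _ hn hnr
  obtain ⟨e, he0, he1⟩ := key _ hd hdr
  refine ⟨c / e, div_ne_zero hc0 he0, ?_⟩
  rw [← RatFunc.num_div_denom f, hc1, he1, RatFunc.algebraMap_C, RatFunc.algebraMap_C, map_div₀]

theorem isFrac_self {B : RatFunc ℂ} (h : 1 ≤ rdeg B) : IsFrac B B.num B.denom where
  cop := RatFunc.isCoprime_num_denom B
  ne2 := RatFunc.denom_ne_zero B
  eq := (RatFunc.num_div_denom B).symm
  deg := h

/-- The conclusion from a completely invariant pair of totally ramified points. -/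
theorem mobConj_of_pair {B : RatFunc ℂ} (hB : 2 ≤ rdeg B) {a b : Option ℂ} (hab : a ≠ b)
    (ha : ram B a = rdeg B) (hb : ram B b = rdeg B)
    (hperm : (img B a = a ∧ img B b = b) ∨ (img B a = b ∧ img B b = a))
    (hout : ∀ q, q ≠ a → q ≠ b → img B q ≠ a ∧ img B q ≠ b) :
    MobConj B (RatFunc.X ^ rdeg B) ∨ MobConj B (RatFunc.X ^ rdeg B)⁻¹ := by
  classical
  have h := isFrac_self (B := B) (by omega)
  have hcomp : ∀ l : ℂ, comp (mob l a b) B = RatFunc.C l * (aeval B (lin a) / aeval B (lin b)) := by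
    intro l
    unfold mob
    rw [comp_div h (lin_ne b), map_mul, aeval_C, RatFunc.algebraMap_eq_C, mul_div_assoc]
  set H := aeval B (lin a) / aeval B (lin b) with hH
  obtain ⟨na, oa⟩ := h.ordP_aeval none (lin a) (lin_ne a)
  obtain ⟨nb, ob⟩ := h.ordP_aeval none (lin b) (lin_ne b)
  have hH0 : H ≠ 0 := div_ne_zero na nb
  have hord : ∀ q, ordP q H = ram B q *
      ((if img B q = a then 1 else 0) - (if img B q = b then 1 else 0)) := by
    intro q
    rw [hH, div_eq_mul_inv, ordP_mul q na (inv_ne_zero nb), ordP_inv,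
      (h.ordP_aeval q (lin a) (lin_ne a)).2, (h.ordP_aeval q (lin b) (lin_ne b)).2,
      ordPol_lin, ordPol_lin]
    ring
  have hm0 := mob_ne (one_ne_zero : (1 : ℂ) ≠ 0) a b
  have hmu : ∀ l : ℂ, mob l a b = RatFunc.C l * mob 1 a b := by
    intro l
    unfold mob
    rw [map_mul, map_mul, RatFunc.algebraMap_C, RatFunc.algebraMap_C, map_one, one_mul,
      mul_div_assoc]
  have hfracm : ∀ l : ℂ, l ≠ 0 → IsFrac (mob l a b) (mob l a b).num (mob l a b).denom :=
    fun l hl => isFrac_self (by rw [rdeg_mob hl hab])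
  rcases hperm with ⟨h1, h2⟩ | ⟨h1, h2⟩
  · left
    -- `H / μ ^ d` is constant
    have hk : ∃ c : ℂ, c ≠ 0 ∧ H * (mob 1 a b ^ rdeg B)⁻¹ = RatFunc.C c := by
      refine eq_C_of_ordP (mul_ne_zero hH0 (inv_ne_zero (pow_ne_zero _ hm0))) ?_
      intro q
      rw [ordP_mul q hH0 (inv_ne_zero (pow_ne_zero _ hm0)), ordP_inv, ordP_pow q hm0, hord,
        ordP_mob one_ne_zero]
      by_cases hqa : q = a
      · subst hqa
        rw [h1, ha, if_pos rfl, if_neg hab]; ring
      · by_cases hqb : q = b
        · subst hqb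
          rw [h2, hb, if_pos rfl, if_neg (Ne.symm hab)]; ring
        · obtain ⟨h3, h4⟩ := hout q hqa hqb
          rw [if_neg h3, if_neg h4, if_neg hqa, if_neg hqb]; ring
    obtain ⟨c, hc0, hc⟩ := hk
    have hH1 : H = RatFunc.C c * mob 1 a b ^ rdeg B := by
      rw [← hc, inv_mul_cancel_right₀ (pow_ne_zero _ hm0)]
    obtain ⟨l, hl⟩ := IsAlgClosed.exists_pow_nat_eq c (n := rdeg B - 1) (by omega)
    have hl0 : l ≠ 0 := by
      rintro rfl
      rw [zero_pow (by omega)] at hl
      exact hc0 hl.symm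
    refine ⟨mob l a b, rdeg_mob hl0 hab, ?_⟩
    rw [hcomp, comp_X_pow (hfracm l hl0), hmu l, hH1, mul_pow, ← map_pow, ← mul_assoc, ← map_mul]
    congr 2
    rw [← hl, ← pow_succ']
    congr 1
    omega
  · right
    have hk : ∃ c : ℂ, c ≠ 0 ∧ H * mob 1 a b ^ rdeg B = RatFunc.C c := by
      refine eq_C_of_ordP (mul_ne_zero hH0 (pow_ne_zero _ hm0)) ?_
      intro q
      rw [ordP_mul q hH0 (pow_ne_zero _ hm0), ordP_pow q hm0, hord, ordP_mob one_ne_zero]
      by_cases hqa : q = a
      · subst hqa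
        rw [h1, ha, if_pos rfl, if_neg hab, if_pos rfl, if_neg (Ne.symm hab)]; ring
      · by_cases hqb : q = b
        · subst hqb
          rw [h2, hb, if_pos rfl, if_neg (Ne.symm hab), if_pos rfl, if_neg hab]; ring
        · obtain ⟨h3, h4⟩ := hout q hqa hqb
          rw [if_neg h3, if_neg h4, if_neg hqa, if_neg hqb]; ring
    obtain ⟨c, hc0, hc⟩ := hk
    have hH1 : H = RatFunc.C c * (mob 1 a b ^ rdeg B)⁻¹ := by
      rw [← hc, mul_inv_cancel_right₀ (pow_ne_zero _ hm0)]
    obtain ⟨l, hl⟩ := IsAlgClosed.exists_pow_nat_eq c⁻¹ (n := rdeg B + 1) (by omega)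
    have hl0 : l ≠ 0 := by
      rintro rfl
      rw [zero_pow (by omega)] at hl
      exact inv_ne_zero hc0 hl.symm
    refine ⟨mob l a b, rdeg_mob hl0 hab, ?_⟩
    rw [hcomp, comp_X_pow_inv (hfracm l hl0), hmu l, hH1, mul_pow, mul_inv, ← map_pow, ← map_inv₀,
      ← mul_assoc, ← map_mul]
    congr 2
    have h5 : l ^ rdeg B * (l * c) = 1 := by
      have : l ^ rdeg B * (l * c) = l ^ (rdeg B + 1) * c := by rw [pow_succ]; ring
      rw [this, hl, inv_mul_cancel₀ hc0]
    exact eq_inv_of_mul_eq_one_right h5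

end Mob

/-- A rational function over `ℂ` that pulls back a bounded sequence of differential forms
`M i / N i dX` over a larger algebraically closed field is conjugate to `X ^ (± d)`. -/
theorem pow_of_forms {K : Type*} [Field K] [IsAlgClosed K] [Algebra ℂ K] (B : RatFunc ℂ)
    (hB : 2 ≤ rdeg B) (M N : ℕ → K[X]) (hM : ∀ i, M i ≠ 0) (hN : ∀ i, N i ≠ 0) (C : ℕ)
    (hMC : ∀ i, (M i).natDegree ≤ C) (hNC : ∀ i, (N i).natDegree ≤ C)
    (hrel : ∀ i, aeval (algebraMap K[X] (RatFunc K) (B.num.map (algebraMap ℂ K)) /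
          algebraMap K[X] (RatFunc K) (B.denom.map (algebraMap ℂ K))) (M i) *
        algebraMap K[X] (RatFunc K) (N (i + 1) *
          (derivative (B.num.map (algebraMap ℂ K)) * B.denom.map (algebraMap ℂ K) -
            B.num.map (algebraMap ℂ K) * derivative (B.denom.map (algebraMap ℂ K)))) =
      aeval (algebraMap K[X] (RatFunc K) (B.num.map (algebraMap ℂ K)) /
          algebraMap K[X] (RatFunc K) (B.denom.map (algebraMap ℂ K))) (N i) *
        algebraMap K[X] (RatFunc K) (M (i + 1) * B.denom.map (algebraMap ℂ K) ^ 2)) :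
    MobConj B (RatFunc.X ^ rdeg B) ∨ MobConj B (RatFunc.X ^ rdeg B)⁻¹ := by
  have : CharZero K := charZero_of_injective_algebraMap (algebraMap ℂ K).injective
  set φ := algebraMap ℂ K with hφ
  set g := algebraMap K[X] (RatFunc K) (B.num.map φ) / algebraMap K[X] (RatFunc K) (B.denom.map φ)
    with hg
  have hdeg : max (B.num.map φ).natDegree (B.denom.map φ).natDegree = rdeg B := by
    rw [natDegree_map, natDegree_map]; rfl
  have hf := isFrac_self (B := B) (by omega)
  have hK : IsFrac g (B.num.map φ) (B.denom.map φ) :=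
    { cop := hf.cop.map (mapRingHom φ)
      ne2 := (Polynomial.map_ne_zero_iff φ.injective).2 hf.ne2
      eq := hg
      deg := by rw [hdeg]; omega }
  obtain ⟨a, b, hab, ha, hb, hperm, hout⟩ := exists_pair_of_forms hK (by rw [hdeg]; exact hB)
    M N hM hN C hMC hNC hrel
  rw [hdeg] at ha hb
  obtain ⟨a, rfl⟩ := hK.mem_of_ram φ (a := a) (by rw [ha]; exact_mod_cast hB)
  obtain ⟨b, rfl⟩ := hK.mem_of_ram φ (a := b) (by rw [hb]; exact_mod_cast hB)
  have hinj : Function.Injective (Option.map φ) := Option.map_injective φ.injective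
  refine mobConj_of_pair hB (a := a) (b := b) (fun h => hab (by rw [h])) ?_ ?_ ?_ ?_
  · rw [← hf.ram_map φ hK]; exact ha
  · rw [← hf.ram_map φ hK]; exact hb
  · rw [hf.img_map φ hK, hf.img_map φ hK] at hperm
    rcases hperm with ⟨h1, h2⟩ | ⟨h1, h2⟩
    · exact Or.inl ⟨hinj h1, hinj h2⟩
    · exact Or.inr ⟨hinj h1, hinj h2⟩
  · intro q h1 h2
    obtain ⟨h3, h4⟩ := hout (q.map φ) (fun h => h1 (hinj h)) (fun h => h2 (hinj h))
    rw [hf.img_map φ hK] at h3 h4
    exact ⟨fun h => h3 (by rw [h]), fun h => h4 (by rw [h])⟩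

end Pool.Agent.Helper42.Pak
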