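import Pool.Agent.Helper50.Pak.PTD
import Pool.Agent.Helper42.Pak.PowForms

/-!
# Place theory, piece PT-F: rational function fields
-/

set_option autoImplicit false

namespace Pool.Agent.Helper63.Pak.PTF

open IntermediateField Pool.Agent.Helper42.Pak
open Polynomial hiding comp

variable {Ω : Type} [Field Ω] [Algebra ℂ Ω]

/-- order of a polynomial at a point of `P^1(ℂ)` -/
noncomputable def opol (p : OnePoint ℂ) (P : ℂ[X]) : ℤ := ordPol (show Option ℂ from p) P

theorem opol_mul (p : OnePoint ℂ) {P Q : ℂ[X]} (hP : P ≠ 0) (hQ : Q ≠ 0) :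
    opol p (P * Q) = opol p P + opol p Q := ordPol_mul _ hP hQ

theorem opol_C (p : OnePoint ℂ) (c : ℂ) : opol p (C c) = 0 := ordPol_C _ c

theorem opol_none (P : ℂ[X]) : opol (none : Option ℂ) P = -(P.natDegree : ℤ) := rfl

theorem opol_some (a : ℂ) (P : ℂ[X]) : opol (some a : Option ℂ) P = (P.rootMultiplicity a : ℤ) := rfl

theorem ev_eq (A : RatFunc ℂ) (y : Ω) : ev A y = aeval y A.num / aeval y A.denom := rfl

theorem aeval_ne_zero {y : Ω} (hy : Transcendental ℂ y) {P : ℂ[X]} (hP : P ≠ 0) :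
    aeval y P ≠ 0 := fun h => hP ((transcendental_iff.1 hy) P h)

theorem aeval_mem (y : Ω) (P : ℂ[X]) : aeval y P ∈ ℂ⟮y⟯ :=
  IntermediateField.algebra_adjoin_le_adjoin ℂ {y} (by
    rw [Algebra.adjoin_singleton_eq_range_aeval]
    exact ⟨P, rfl⟩)

theorem ev_mem (A : RatFunc ℂ) (y : Ω) : ev A y ∈ ℂ⟮y⟯ := by
  rw [ev_eq]
  exact div_mem (aeval_mem y _) (aeval_mem y _)

theorem ff_adjoin {y : Ω} (hy : Transcendental ℂ y) : FF ℂ⟮y⟯ := by
  refine ⟨IntermediateField.fg_adjoin_of_finite (Set.finite_singleton y), ?_⟩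
  intro h
  rw [IntermediateField.adjoin_simple_eq_bot_iff, IntermediateField.mem_bot] at h
  obtain ⟨c, rfl⟩ := h
  exact hy (isAlgebraic_algebraMap c)

theorem ev_ne_zero {Q : RatFunc ℂ} (hQ : Q ≠ 0) {y : Ω} (hy : Transcendental ℂ y) :
    ev Q y ≠ 0 := by
  rw [ev_eq]
  exact div_ne_zero (aeval_ne_zero hy (RatFunc.num_ne_zero hQ))
    (aeval_ne_zero hy (RatFunc.denom_ne_zero Q))

theorem exists_ev_of_mem {y z : Ω} (hz : z ∈ ℂ⟮y⟯) : ∃ P Q : ℂ[X], z = aeval y P / aeval y Q := by
  rw [IntermediateField.mem_adjoin_simple_iff] at hz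
  exact hz

/-- polynomials over `ℂ` of degree zero away from a root -/
theorem sub_ne_of_transcendental {z : Ω} (hz : Transcendental ℂ z) (c : ℂ) :
    z - algebraMap ℂ Ω c ≠ 0 := by
  intro h
  rw [sub_eq_zero] at h
  rw [h] at hz
  exact hz (isAlgebraic_algebraMap c)

theorem ev_sub {A : RatFunc ℂ} {y : Ω} (hy : Transcendental ℂ y) (c : ℂ) :
    ev A y - algebraMap ℂ Ω c = aeval y (A.num - C c * A.denom) / aeval y A.denom := by
  have hd : aeval y A.denom ≠ 0 := aeval_ne_zero hy (RatFunc.denom_ne_zero A)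
  rw [ev_eq, map_sub, map_mul, aeval_C]
  field_simp

theorem num_sub_ne {A : RatFunc ℂ} (hA : 1 ≤ rdeg A) (c : ℂ) : A.num - C c * A.denom ≠ 0 :=
  (isFrac_self hA).sub_ne c

theorem transcendental_ev {A : RatFunc ℂ} (hA : 1 ≤ rdeg A) {y : Ω} (hy : Transcendental ℂ y) :
    Transcendental ℂ (ev A y) := by
  intro halg
  obtain ⟨p, hp, hp0⟩ := halg
  -- `p` splits
  obtain ⟨n, hn⟩ : ∃ n, p.natDegree = n := ⟨_, rfl⟩
  induction n generalizing p with
  | zero =>
    obtain ⟨c, rfl⟩ := natDegree_eq_zero.1 hn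
    rw [aeval_C] at hp0
    have h1 := (algebraMap ℂ Ω).injective (hp0.trans (map_zero _).symm)
    exact hp (by rw [h1, map_zero])
  | succ n ih =>
    obtain ⟨r, hr⟩ := IsAlgClosed.exists_root p (by
      rw [degree_eq_natDegree hp, hn]
      exact_mod_cast Nat.succ_ne_zero n)
    obtain ⟨Q, rfl⟩ := dvd_iff_isRoot.2 hr
    have hQ : Q ≠ 0 := right_ne_zero_of_mul hp
    have hX : (X - C r : ℂ[X]) ≠ 0 := X_sub_C_ne_zero r
    have hdeg : Q.natDegree = n := by
      rw [natDegree_mul hX hQ, natDegree_X_sub_C] at hn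
      omega
    rw [map_mul] at hp0
    rcases mul_eq_zero.1 hp0 with h1 | h1
    · rw [map_sub, aeval_X, aeval_C, ev_sub hy] at h1
      exact div_ne_zero (aeval_ne_zero hy (num_sub_ne hA r))
        (aeval_ne_zero hy (RatFunc.denom_ne_zero A)) h1
    · exact ih Q hQ h1 hdeg

section Univ

variable [CurveUniverse Ω]

/-- local parameter of `ℂ(y)` at `v` -/
noncomputable def lpar (v : Pt Ω) (y : Ω) : Ω :=
  match val v y with
  | some c => y - algebraMap ℂ Ω c
  | none => y⁻¹

omit [CurveUniverse Ω] in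
theorem lpar_some {v : Pt Ω} {y : Ω} {c : ℂ} (h : val v y = (c : OnePoint ℂ)) :
    lpar v y = y - algebraMap ℂ Ω c := by
  unfold lpar
  rw [h]

omit [CurveUniverse Ω] in
theorem lpar_none {v : Pt Ω} {y : Ω} (h : val v y = OnePoint.infty) :
    lpar v y = y⁻¹ := by
  unfold lpar
  rw [h]

omit [CurveUniverse Ω] in
theorem self_mem (y : Ω) : y ∈ ℂ⟮y⟯ := IntermediateField.mem_adjoin_simple_self ℂ y

omit [CurveUniverse Ω] in
theorem const_mem' (K : IntermediateField ℂ Ω) (c : ℂ) : algebraMap ℂ Ω c ∈ K :=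
  K.algebraMap_mem c

omit [CurveUniverse Ω] in
theorem transcendental_ne_zero {y : Ω} (hy : Transcendental ℂ y) : y ≠ 0 := by
  rintro rfl
  exact hy isAlgebraic_zero

theorem lpar_pos (v : Pt Ω) {y : Ω} (hy : Transcendental ℂ y) : 0 < ordO v ℂ⟮y⟯ (lpar v y) := by
  cases hv : val v y with
  | infty =>
    have hv' : val v y = OnePoint.infty := hv
    rw [lpar_none hv', ordO_inv v (ff_adjoin hy) (self_mem y)]
    have h1 : ¬ 0 ≤ ordO v ℂ⟮y⟯ y := by
      rw [ordO_nonneg_iff v (ff_adjoin hy) (self_mem y) (transcendental_ne_zero hy),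
        pt_mem_ring_iff]
      exact not_not.2 hv'
    omega
  | coe c =>
    have hv' : val v y = (c : OnePoint ℂ) := hv
    rw [lpar_some hv', ordO_pos_iff v (ff_adjoin hy) (sub_mem (self_mem y) (const_mem' _ c))
      (sub_ne_of_transcendental hy c)]
    exact (pt_val_eq_coe_iff v y c).1 hv'

theorem ordO_sub_const (v : Pt Ω) {y : Ω} (hy : Transcendental ℂ y) (r : ℂ) :
    ordO v ℂ⟮y⟯ (y - algebraMap ℂ Ω r) =
      ordO v ℂ⟮y⟯ (lpar v y) * opol (val v y) (X - C r) := by
  have hF := ff_adjoin hy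
  have hm : ∀ r : ℂ, y - algebraMap ℂ Ω r ∈ ℂ⟮y⟯ := fun r => sub_mem (self_mem y) (const_mem' _ r)
  have h0 := sub_ne_of_transcendental hy r
  have hy0 := transcendental_ne_zero hy
  cases hv : val v y with
  | infty =>
    have hv' : val v y = OnePoint.infty := hv
    have hpos := lpar_pos v hy
    rw [lpar_none hv', ordO_inv v hF (self_mem y)] at hpos ⊢
    show _ = _ * ordPol (none : Option ℂ) (X - C r)
    rw [ordPol_none_X_sub_C]
    -- the order of `y - r` equals the order of `y`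
    by_cases hr : r = 0
    · subst hr
      rw [map_zero, sub_zero]; ring
    have hr' : algebraMap ℂ Ω r ≠ 0 := by
      rw [Ne, map_eq_zero]; exact hr
    apply le_antisymm
    · by_contra hcon
      push Not at hcon
      have h1 : min (ordO v ℂ⟮y⟯ (y - algebraMap ℂ Ω r)) 0 ≤
          ordO v ℂ⟮y⟯ ((y - algebraMap ℂ Ω r) + algebraMap ℂ Ω r) :=
        le_ordO_add v hF (hm r) (const_mem' _ r) (by rw [sub_add_cancel]; exact hy0)
          (Or.inr (min_le_left _ _)) (Or.inr (by rw [ordO_algebraMap]; exact min_le_right _ _))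
      rw [sub_add_cancel] at h1
      rcases min_le_iff.1 h1 with h2 | h2 <;> omega
    · have h1 : min (ordO v ℂ⟮y⟯ y) 0 ≤ ordO v ℂ⟮y⟯ (y + -algebraMap ℂ Ω r) :=
        le_ordO_add v hF (self_mem y) (neg_mem (const_mem' _ r)) (by rw [← sub_eq_add_neg]; exact h0)
          (Or.inr (min_le_left _ _)) (Or.inr (by
            rw [← map_neg, ordO_algebraMap]; exact min_le_right _ _))
      rw [← sub_eq_add_neg] at h1
      rcases min_le_iff.1 h1 with h2 | h2 <;> omega
  | coe c =>
    have hv' : val v y = (c : OnePoint ℂ) := hv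
    have hpos := lpar_pos v hy
    rw [lpar_some hv'] at hpos ⊢
    show _ = _ * ordPol (some c : Option ℂ) (X - C r)
    by_cases hr : c = r
    · subst hr
      rw [ordPol_some_X_sub_C_self, mul_one]
    · rw [ordPol_some_X_sub_C_ne hr, mul_zero]
      have hc0 := sub_ne_of_transcendental hy c
      have hcr : algebraMap ℂ Ω (c - r) ≠ 0 := by
        rw [Ne, map_eq_zero]; exact sub_ne_zero.2 hr
      have e1 : y - algebraMap ℂ Ω r = (y - algebraMap ℂ Ω c) + algebraMap ℂ Ω (c - r) := by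
        rw [map_sub]; ring
      have e2 : algebraMap ℂ Ω (c - r) = (y - algebraMap ℂ Ω r) +
          algebraMap ℂ Ω (-1) * (y - algebraMap ℂ Ω c) := by
        rw [map_sub, map_neg, map_one]; ring
      apply le_antisymm
      · by_contra hcon
        push Not at hcon
        have h2 : ordO v ℂ⟮y⟯ (algebraMap ℂ Ω (-1) * (y - algebraMap ℂ Ω c)) =
            ordO v ℂ⟮y⟯ (y - algebraMap ℂ Ω c) := by
          rw [ordO_mul v hF (const_mem' _ _) (hm c) (by
            rw [Ne, map_eq_zero]; norm_num) hc0, ordO_algebraMap, zero_add]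
        have h1 : (1 : ℤ) ≤ ordO v ℂ⟮y⟯ ((y - algebraMap ℂ Ω r) +
            algebraMap ℂ Ω (-1) * (y - algebraMap ℂ Ω c)) :=
          le_ordO_add v hF (hm r) (mul_mem (const_mem' _ _) (hm c)) (by rw [← e2]; exact hcr)
            (Or.inr (by omega)) (Or.inr (by rw [h2]; omega))
        rw [← e2, ordO_algebraMap] at h1
        omega
      · have h1 : (0 : ℤ) ≤ ordO v ℂ⟮y⟯ ((y - algebraMap ℂ Ω c) + algebraMap ℂ Ω (c - r)) :=
          le_ordO_add v hF (hm c) (const_mem' _ _) (by rw [← e1]; exact h0)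
            (Or.inr (by omega)) (Or.inr (by rw [ordO_algebraMap]))
        rw [← e1] at h1
        exact h1

/-- orders of polynomials in `y`, up to the order of the local parameter -/
theorem ordO_aeval_aux (v : Pt Ω) {y : Ω} (hy : Transcendental ℂ y) (P : ℂ[X]) (hP : P ≠ 0) :
    ordO v ℂ⟮y⟯ (aeval y P) = ordO v ℂ⟮y⟯ (lpar v y) * opol (val v y) P := by
  have hF := ff_adjoin hy
  obtain ⟨n, hn⟩ : ∃ n, P.natDegree = n := ⟨_, rfl⟩
  induction n generalizing P with
  | zero =>
    obtain ⟨c, rfl⟩ := natDegree_eq_zero.1 hn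
    rw [aeval_C, opol_C, mul_zero, ordO_algebraMap]
  | succ n ih =>
    obtain ⟨r, hr⟩ := IsAlgClosed.exists_root P (by
      rw [degree_eq_natDegree hP, hn]
      exact_mod_cast Nat.succ_ne_zero n)
    obtain ⟨Q, rfl⟩ := dvd_iff_isRoot.2 hr
    have hQ : Q ≠ 0 := right_ne_zero_of_mul hP
    have hX : (X - C r : ℂ[X]) ≠ 0 := X_sub_C_ne_zero r
    have hdeg : Q.natDegree = n := by
      rw [natDegree_mul hX hQ, natDegree_X_sub_C] at hn
      omega
    rw [map_mul, ordO_mul v hF (aeval_mem y _) (aeval_mem y _) (aeval_ne_zero hy hX)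
      (aeval_ne_zero hy hQ), ih Q hQ hdeg, opol_mul _ hX hQ, map_sub, aeval_X, aeval_C,
      ordO_sub_const v hy]
    ring

theorem ordO_lpar (v : Pt Ω) {y : Ω} (hy : Transcendental ℂ y) : ordO v ℂ⟮y⟯ (lpar v y) = 1 := by
  have hF := ff_adjoin hy
  obtain ⟨π, hπ, h1⟩ := exists_ordO_eq_one v hF
  obtain ⟨P, Q, rfl⟩ := exists_ev_of_mem hπ
  have hpos := lpar_pos v hy
  have hz : ordO v ℂ⟮y⟯ (0 : Ω) = 0 := by
    have := ordO_algebraMap (K := ℂ⟮y⟯) v 0
    rwa [map_zero] at this
  have hP : P ≠ 0 := by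
    rintro rfl
    rw [map_zero, zero_div, hz] at h1
    exact zero_ne_one h1
  have hQ : Q ≠ 0 := by
    rintro rfl
    rw [map_zero, div_zero, hz] at h1
    exact zero_ne_one h1
  rw [div_eq_mul_inv, ordO_mul v hF (aeval_mem y P) (inv_mem (aeval_mem y Q))
    (aeval_ne_zero hy hP) (inv_ne_zero (aeval_ne_zero hy hQ)), ordO_inv v hF (aeval_mem y Q),
    ordO_aeval_aux v hy P hP, ordO_aeval_aux v hy Q hQ, ← sub_eq_add_neg, ← mul_sub] at h1
  rcases Int.eq_one_or_neg_one_of_mul_eq_one' h1 with ⟨h2, _⟩ | ⟨h2, _⟩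
  · exact h2
  · omega

theorem ordO_aeval (v : Pt Ω) {y : Ω} (hy : Transcendental ℂ y) {P : ℂ[X]} (hP : P ≠ 0) :
    ordO v ℂ⟮y⟯ (aeval y P) = opol (val v y) P := by
  rw [ordO_aeval_aux v hy P hP, ordO_lpar v hy, one_mul]

theorem ordO_aeval_div (v : Pt Ω) {y : Ω} (hy : Transcendental ℂ y) {P Q : ℂ[X]} (hP : P ≠ 0)
    (hQ : Q ≠ 0) : ordO v ℂ⟮y⟯ (aeval y P / aeval y Q) = opol (val v y) P - opol (val v y) Q := by
  have hF := ff_adjoin hy
  rw [div_eq_mul_inv, ordO_mul v hF (aeval_mem y P) (inv_mem (aeval_mem y Q))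
    (aeval_ne_zero hy hP) (inv_ne_zero (aeval_ne_zero hy hQ)), ordO_inv v hF (aeval_mem y Q),
    ordO_aeval v hy hP, ordO_aeval v hy hQ]
  ring

theorem ordO_self_of_val_zero (v : Pt Ω) {z : Ω} (hz : Transcendental ℂ z)
    (h : val v z = ((0 : ℂ) : OnePoint ℂ)) : ordO v ℂ⟮z⟯ z = 1 := by
  have h1 := ordO_lpar v hz
  rw [lpar_some h, map_zero, sub_zero] at h1
  exact h1

theorem ordO_self_of_val_infty (v : Pt Ω) {z : Ω} (hz : Transcendental ℂ z)
    (h : val v z = OnePoint.infty) : ordO v ℂ⟮z⟯ z = -1 := by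
  have h1 := ordO_lpar v hz
  rw [lpar_none h, ordO_inv v (ff_adjoin hz) (self_mem z)] at h1
  omega

omit [CurveUniverse Ω] in
theorem adjoin_le {K : IntermediateField ℂ Ω} {z : Ω} (hz : z ∈ K) : ℂ⟮z⟯ ≤ K :=
  IntermediateField.adjoin_simple_le_iff.2 hz

omit [CurveUniverse Ω] in
theorem exists_const_of_algebraic {z : Ω} (h : ¬ Transcendental ℂ z) :
    ∃ c : ℂ, z = algebraMap ℂ Ω c := by
  obtain ⟨p, hp, hp0⟩ := not_not.1 h
  obtain ⟨n, hn⟩ : ∃ n, p.natDegree = n := ⟨_, rfl⟩
  induction n generalizing p with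
  | zero =>
    obtain ⟨c, rfl⟩ := natDegree_eq_zero.1 hn
    rw [aeval_C] at hp0
    have h1 := (algebraMap ℂ Ω).injective (hp0.trans (map_zero _).symm)
    exact absurd (by rw [h1, map_zero]) hp
  | succ n ih =>
    obtain ⟨r, hr⟩ := IsAlgClosed.exists_root p (by
      rw [degree_eq_natDegree hp, hn]
      exact_mod_cast Nat.succ_ne_zero n)
    obtain ⟨Q, rfl⟩ := dvd_iff_isRoot.2 hr
    have hQ : Q ≠ 0 := right_ne_zero_of_mul hp
    have hX : (X - C r : ℂ[X]) ≠ 0 := X_sub_C_ne_zero r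
    have hdeg : Q.natDegree = n := by
      rw [natDegree_mul hX hQ, natDegree_X_sub_C] at hn
      omega
    rw [map_mul] at hp0
    rcases mul_eq_zero.1 hp0 with h1 | h1
    · rw [map_sub, aeval_X, aeval_C, sub_eq_zero] at h1
      exact ⟨r, h1⟩
    · exact ih Q hQ h1 hdeg

theorem pt_ordAt_eq_ordO (v : Pt Ω) {K : IntermediateField ℂ Ω} {z : Ω} (hK : FF K) (hz : z ∈ K)
    (hz0 : z ≠ 0) : ordAt v K z = ordO v K z := by
  classical
  by_cases ht : Transcendental ℂ z
  · have hle := adjoin_le hz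
    have hF := ff_adjoin ht
    unfold ordAt
    by_cases h0 : val v z = ((0 : ℂ) : OnePoint ℂ)
    · rw [if_pos h0, pt_e_eq_eV v hF hK hle, ordO_eq_eV_mul v hF hK hle (self_mem z),
        ordO_self_of_val_zero v ht h0, mul_one]
    · rw [if_neg h0]
      by_cases h1 : val v z = OnePoint.infty
      · rw [if_pos h1, pt_e_eq_eV v hF hK hle, ordO_eq_eV_mul v hF hK hle (self_mem z),
          ordO_self_of_val_infty v ht h1]
        ring
      · rw [if_neg h1]
        have h2 : 0 ≤ ordO v K z := (ordO_nonneg_iff v hK hz hz0).2 ((pt_mem_ring_iff v z).2 h1)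
        have h3 : ¬ 0 < ordO v K z := by
          rw [ordO_pos_iff v hK hz hz0]
          intro h4
          apply h0
          rw [pt_val_eq_coe_iff, map_zero, sub_zero]
          exact h4
        omega
  · obtain ⟨c, rfl⟩ := exists_const_of_algebraic ht
    have hc : c ≠ 0 := by
      rintro rfl
      exact hz0 (map_zero _)
    unfold ordAt
    rw [pt_val_algebraMap, if_neg (by
      intro h
      exact hc (OnePoint.coe_injective h)), if_neg (OnePoint.coe_ne_infty c), ordO_algebraMap]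

end Univ

section Local

theorem pmap_coe (A : RatFunc ℂ) (z : ℂ) (h : A.denom.eval z ≠ 0) :
    pmap A (z : OnePoint ℂ) = ((A.num.eval z / A.denom.eval z : ℂ) : OnePoint ℂ) := by
  classical
  show (if A.denom.eval z = 0 then OnePoint.infty
    else ((A.num.eval z / A.denom.eval z : ℂ) : OnePoint ℂ)) = _
  rw [if_neg h]

theorem pmap_coe_infty (A : RatFunc ℂ) (z : ℂ) (h : A.denom.eval z = 0) :
    pmap A (z : OnePoint ℂ) = OnePoint.infty := by
  classical
  show (if A.denom.eval z = 0 then OnePoint.infty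
    else ((A.num.eval z / A.denom.eval z : ℂ) : OnePoint ℂ)) = _
  rw [if_pos h]

theorem pmap_infty (A : RatFunc ℂ) (h : A.denom.coeff (rdeg A) ≠ 0) :
    pmap A OnePoint.infty =
      ((A.num.coeff (rdeg A) / A.denom.coeff (rdeg A) : ℂ) : OnePoint ℂ) := by
  classical
  show (if A.denom.coeff (rdeg A) = 0 then OnePoint.infty
    else ((A.num.coeff (rdeg A) / A.denom.coeff (rdeg A) : ℂ) : OnePoint ℂ)) = _
  rw [if_neg h]

theorem pmap_infty_infty (A : RatFunc ℂ) (h : A.denom.coeff (rdeg A) = 0) :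
    pmap A OnePoint.infty = OnePoint.infty := by
  classical
  show (if A.denom.coeff (rdeg A) = 0 then OnePoint.infty
    else ((A.num.coeff (rdeg A) / A.denom.coeff (rdeg A) : ℂ) : OnePoint ℂ)) = _
  rw [if_pos h]

theorem natDegree_denom_of_coeff (A : RatFunc ℂ) (h : A.denom.coeff (rdeg A) ≠ 0) :
    A.denom.natDegree = rdeg A := by
  have h1 : rdeg A ≤ A.denom.natDegree := le_natDegree_of_ne_zero h
  have h2 : A.denom.natDegree ≤ rdeg A := le_max_right _ _
  omega

theorem natDegree_num_of_coeff (A : RatFunc ℂ) (h : A.denom.coeff (rdeg A) = 0) :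
    A.num.natDegree = rdeg A := by
  have h1 : A.denom.natDegree ≠ rdeg A := by
    intro h1
    rw [← h1] at h
    exact leadingCoeff_ne_zero.2 (RatFunc.denom_ne_zero A) h
  have h2 : rdeg A = max A.num.natDegree A.denom.natDegree := rfl
  have h3 : A.denom.natDegree ≤ rdeg A := le_max_right _ _
  omega

/-- local degree at a point with finite value -/
theorem locDeg_of_finite (A : RatFunc ℂ) (p : OnePoint ℂ) (w : ℂ)
    (hw : pmap A p = (w : OnePoint ℂ)) :
    opol p (A.num - C w * A.denom) - opol p A.denom = locDeg A p := by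
  cases p with
  | infty =>
    have hd : A.denom.coeff (rdeg A) ≠ 0 := by
      intro h
      rw [pmap_infty_infty A h] at hw
      exact OnePoint.infty_ne_coe w hw
    have h1 := natDegree_denom_of_coeff A hd
    have h2 : locDeg A OnePoint.infty = rdeg A - (A.num - C w * A.denom).natDegree := by
      show rdeg A - (fibPoly A (pmap A none)).natDegree = _
      have : pmap A none = (w : OnePoint ℂ) := hw
      rw [this]
      rfl
    have h3 : (A.num - C w * A.denom).natDegree ≤ rdeg A :=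
      (natDegree_sub_le _ _).trans (max_le (le_max_left _ _)
        ((natDegree_C_mul_le _ _).trans (le_max_right _ _)))
    show ordPol (none : Option ℂ) _ - ordPol (none : Option ℂ) _ = _
    rw [ordPol_none, ordPol_none, h2, h1]
    omega
  | coe z =>
    have hd : A.denom.eval z ≠ 0 := by
      intro h
      rw [pmap_coe_infty A z h] at hw
      exact OnePoint.infty_ne_coe w hw
    have h2 : locDeg A (z : OnePoint ℂ) = (A.num - C w * A.denom).rootMultiplicity z := by
      show (fibPoly A (pmap A (some z))).rootMultiplicity z = _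
      have : pmap A (some z) = (w : OnePoint ℂ) := hw
      rw [this]
      rfl
    show ordPol (some z : Option ℂ) _ - ordPol (some z : Option ℂ) _ = _
    rw [ordPol_eq_zero_of_eval hd, ordPol_some, h2, sub_zero]

/-- local degree at a pole -/
theorem locDeg_of_infty (A : RatFunc ℂ) (p : OnePoint ℂ)
    (hw : pmap A p = OnePoint.infty) :
    opol p A.denom - opol p A.num = locDeg A p := by
  cases p with
  | infty =>
    have hd : A.denom.coeff (rdeg A) = 0 := by
      by_contra h
      rw [pmap_infty A h] at hw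
      exact OnePoint.coe_ne_infty _ hw
    have h1 := natDegree_num_of_coeff A hd
    have h2 : locDeg A OnePoint.infty = rdeg A - A.denom.natDegree := by
      show rdeg A - (fibPoly A (pmap A none)).natDegree = _
      have : pmap A none = OnePoint.infty := hw
      rw [this]
      rfl
    have h3 : A.denom.natDegree ≤ rdeg A := le_max_right _ _
    show ordPol (none : Option ℂ) _ - ordPol (none : Option ℂ) _ = _
    rw [ordPol_none, ordPol_none, h2, h1]
    omega
  | coe z =>
    have hd : A.denom.eval z = 0 := by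
      by_contra h
      rw [pmap_coe A z h] at hw
      exact OnePoint.coe_ne_infty _ hw
    have h2 : locDeg A (z : OnePoint ℂ) = A.denom.rootMultiplicity z := by
      show (fibPoly A (pmap A (some z))).rootMultiplicity z = _
      have : pmap A (some z) = OnePoint.infty := hw
      rw [this]
      rfl
    have h3 := coprime_not_both (RatFunc.isCoprime_num_denom A).symm hd
    show ordPol (some z : Option ℂ) _ - ordPol (some z : Option ℂ) _ = _
    rw [ordPol_eq_zero_of_eval h3, ordPol_some, h2, sub_zero]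

/-- order zero at a point with finite nonzero value -/
theorem opol_eq_of_unit (A : RatFunc ℂ) (p : OnePoint ℂ) (h0 : pmap A p ≠ ((0 : ℂ) : OnePoint ℂ))
    (h1 : pmap A p ≠ OnePoint.infty) : opol p A.num = opol p A.denom := by
  cases p with
  | infty =>
    have hd : A.denom.coeff (rdeg A) ≠ 0 := by
      intro h
      exact h1 (pmap_infty_infty A h)
    have h2 := natDegree_denom_of_coeff A hd
    have hn : A.num.coeff (rdeg A) ≠ 0 := by
      intro h
      apply h0
      rw [pmap_infty A hd, h, zero_div]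
    have h3 : rdeg A ≤ A.num.natDegree := le_natDegree_of_ne_zero hn
    have h4 : A.num.natDegree ≤ rdeg A := le_max_left _ _
    show ordPol (none : Option ℂ) _ = ordPol (none : Option ℂ) _
    rw [ordPol_none, ordPol_none, h2]
    omega
  | coe z =>
    have hd : A.denom.eval z ≠ 0 := by
      intro h
      exact h1 (pmap_coe_infty A z h)
    have hn : A.num.eval z ≠ 0 := by
      intro h
      apply h0
      rw [pmap_coe A z hd, h, zero_div]
    show ordPol (some z : Option ℂ) _ = ordPol (some z : Option ℂ) _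
    rw [ordPol_eq_zero_of_eval hd, ordPol_eq_zero_of_eval hn]

end Local

section Univ2

variable [CurveUniverse Ω]

theorem pt_ordAt_ev (v : Pt Ω) (Q : RatFunc ℂ) {y : Ω} (hy : Transcendental ℂ y) (hQ : Q ≠ 0) :
    ordAt v ℂ⟮y⟯ (ev Q y) = ordQ Q (val v y) := by
  classical
  have hn := RatFunc.num_ne_zero hQ
  have hd := RatFunc.denom_ne_zero Q
  rw [pt_ordAt_eq_ordO v (ff_adjoin hy) (ev_mem Q y) (ev_ne_zero hQ hy), ev_eq,
    ordO_aeval_div v hy hn hd]
  unfold ordQ
  by_cases h0 : pmap Q (val v y) = ((0 : ℂ) : OnePoint ℂ)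
  · rw [if_pos h0]
    have h1 := locDeg_of_finite Q (val v y) 0 h0
    rw [map_zero, zero_mul, sub_zero] at h1
    exact h1
  · rw [if_neg h0]
    by_cases h1 : pmap Q (val v y) = OnePoint.infty
    · rw [if_pos h1, ← locDeg_of_infty Q (val v y) h1]
      ring
    · rw [if_neg h1, opol_eq_of_unit Q _ h0 h1, sub_self]

theorem pt_e_ev (v : Pt Ω) (A : RatFunc ℂ) {y : Ω} (hy : Transcendental ℂ y) (hA : 1 ≤ rdeg A) :
    e v ℂ⟮ev A y⟯ ℂ⟮y⟯ = locDeg A (val v y) := by
  have hz := transcendental_ev hA hy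
  have hFz := ff_adjoin hz
  have hFy := ff_adjoin hy
  have hle : ℂ⟮ev A y⟯ ≤ ℂ⟮y⟯ := adjoin_le (ev_mem A y)
  have hd := RatFunc.denom_ne_zero A
  have hn : A.num ≠ 0 := by
    have := num_sub_ne hA 0
    rwa [map_zero, zero_mul, sub_zero] at this
  rw [pt_e_eq_eV v hFz hFy hle]
  have hv := pt_val_ev v A hy
  cases hw : val v (ev A y) with
  | infty =>
    rw [hw] at hv
    have h1 := ordO_eq_eV_mul v hFz hFy hle (self_mem (ev A y))
    rw [ordO_self_of_val_infty v hz hw] at h1
    have h2 : ordO v ℂ⟮y⟯ (ev A y) = opol (val v y) A.num - opol (val v y) A.denom := by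
      rw [ev_eq, ordO_aeval_div v hy hn hd]
    have h3 := locDeg_of_infty A (val v y) hv.symm
    have h4 : (eV v ℂ⟮ev A y⟯ ℂ⟮y⟯ : ℤ) = locDeg A (val v y) := by
      rw [← h3]
      linarith
    exact_mod_cast h4
  | coe w =>
    rw [hw] at hv
    have h1 := ordO_eq_eV_mul v hFz hFy hle (sub_mem (self_mem (ev A y)) (const_mem' _ w))
    have h0 := ordO_lpar v hz
    rw [lpar_some hw] at h0
    rw [h0, mul_one, ev_sub hy, ordO_aeval_div v hy (num_sub_ne hA w) hd,
      locDeg_of_finite A _ w hv.symm] at h1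
    exact_mod_cast h1.symm

end Univ2

end Pool.Agent.Helper63.Pak.PTF

namespace Pool.Agent.Helper63.Pak

open IntermediateField

variable {Ω : Type} [Field Ω] [Algebra ℂ Ω] [CurveUniverse Ω]

theorem pt_e_ev (v : Pt Ω) (A : RatFunc ℂ) {y : Ω} (hy : Transcendental ℂ y) (hA : 1 ≤ rdeg A) :
    e v ℂ⟮ev A y⟯ ℂ⟮y⟯ = locDeg A (val v y) := PTF.pt_e_ev v A hy hA

theorem pt_ordAt_eq_ordO (v : Pt Ω) {K : IntermediateField ℂ Ω} {z : Ω} (hK : FF K) (hz : z ∈ K)
    (hz0 : z ≠ 0) : ordAt v K z = ordO v K z := PTF.pt_ordAt_eq_ordO v hK hz hz0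

theorem pt_ordAt_ev (v : Pt Ω) (Q : RatFunc ℂ) {y : Ω} (hy : Transcendental ℂ y) (hQ : Q ≠ 0) :
    ordAt v ℂ⟮y⟯ (ev Q y) = ordQ Q (val v y) := PTF.pt_ordAt_ev v Q hy hQ

end Pool.Agent.Helper63.Pak
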